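import Mathlib
import Pool.Agent.H977R3.CM.Defs

/-!
# Degenerate CM types and imaginary cyclic subfields
-/

namespace Pool.Agent.TH170.CM

open NumberField Pool.Agent.H204R3.CM Pool.Agent.H977R3.CM

open Classical in
/-- The function with value `1` on `Φ` and `-1` outside of `Φ`. -/
noncomputable def sgn {E : Type*} [Field E] (Φ : Set (E →+* ℂ)) (φ : E →+* ℂ) : ℤ :=
  if φ ∈ Φ then 1 else -1

/-- The CM type `Φ` is degenerate: the translates of its sign function by the automorphisms of the
complex numbers satisfy a nontrivial antisymmetric linear relation (the reflex norm has a rank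
smaller than `g + 1`, `[E : ℚ] = 2 g`; the Hodge group of the abelian varieties with this CM type has
dimension less than `g`). -/
def Degenerate {E : Type*} [Field E] [NumberField E] (Φ : Set (E →+* ℂ)) : Prop :=
  ∃ b : (E →+* ℂ) → ℤ, b ≠ 0 ∧ (∀ φ, b (ComplexEmbedding.conjugate φ) = -b φ) ∧
    ∀ σ : ℂ ≃+* ℂ, ∑ φ, b φ * sgn Φ ((σ : ℂ →+* ℂ).comp φ) = 0

/-- The degenerate CM types of `E`. -/
def degenerateTypes (E : Type*) [Field E] [NumberField E] : Set (Set (E →+* ℂ)) :=
  {Φ | IsCMType Φ ∧ Degenerate Φ}

/-- The imaginary cyclic subfields of `E`: the subfields that are Galois over `ℚ` with cyclic Galois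
group, and are not totally real. -/
def ImagCyclic (E : Type*) [Field E] [NumberField E] : Set (IntermediateField ℚ E) :=
  {K | IsGalois ℚ K ∧ IsCyclic (K ≃ₐ[ℚ] K) ∧ ¬ IsTotallyReal K}

open Classical in
/-- The contribution of an imaginary cyclic subfield `K` with `m = [K : ℚ]` and `n = [E : K]`:
the largest probability of a value of a sum of `n` independent signs, to the power `φ(m)`; and `0`
if `m` is a power of two and `n` is odd. -/
noncomputable def weight (m n : ℕ) : ℝ :=
  if (∃ a, m = 2 ^ a) ∧ Odd n then 0 else ((n.choose (n / 2) : ℝ) / 2 ^ n) ^ m.totient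

end Pool.Agent.TH170.CM
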