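import Mathlib

/-!
# Counting sign vectors with prescribed sums over the first classes
-/

namespace Pool.Agent.TH170.CM

open Finset

/-- The number of elements on which `b` is true. -/
def cnt {N : Type*} [Fintype N] (b : N → Bool) : ℕ := (univ.filter (fun y => b y = true)).card

theorem card_cnt_eq {N : Type*} [Fintype N] [DecidableEq N] (s : ℕ) :
    (univ.filter (fun b : N → Bool => cnt b = s)).card ≤
      (Fintype.card N).choose (Fintype.card N / 2) := by
  classical
  refine le_trans ?_ (Nat.choose_le_middle s (Fintype.card N))
  rw [← Finset.card_univ, ← Finset.card_powersetCard]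
  refine Finset.card_le_card_of_injOn (fun b => univ.filter (fun y => b y = true)) ?_ ?_
  · intro b hb
    rw [Finset.mem_coe, Finset.mem_filter] at hb
    rw [Finset.mem_coe, Finset.mem_powersetCard]
    exact ⟨Finset.subset_univ _, hb.2⟩
  · intro b _ b' _ h
    funext y
    have h1 : (y ∈ univ.filter (fun y => b y = true)) ↔ (y ∈ univ.filter (fun y => b' y = true)) := by
      have h2 : univ.filter (fun y => b y = true) = univ.filter (fun y => b' y = true) := h
      rw [h2]
    simp only [Finset.mem_filter, Finset.mem_univ, true_and] at h1
    exact Bool.eq_iff_iff.2 h1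

/-- Families of sign vectors, in `h` classes of `|N|` elements, which are determined outside the
first `k` classes together with the sums over the first `k` classes. -/
theorem card_le {N : Type*} [Fintype N] [DecidableEq N] (h k : ℕ) (hk : k ≤ h)
    (S : Finset (Fin h → N → Bool))
    (hS : ∀ v ∈ S, ∀ v' ∈ S, (∀ r : Fin h, k ≤ r.1 → v r = v' r) → ∀ r, cnt (v r) = cnt (v' r)) :
    S.card ≤ ((Fintype.card N).choose (Fintype.card N / 2)) ^ k * (2 ^ Fintype.card N) ^ (h - k) := by
  classical
  let R : Type := {r : Fin h // k ≤ r.1}
  let res : (Fin h → N → Bool) → (R → N → Bool) := fun v r => v r.1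
  have h1 : ∀ w ∈ (univ : Finset (R → N → Bool)), (S.filter (fun v => res v = w)).card ≤
      ((Fintype.card N).choose (Fintype.card N / 2)) ^ k := by
    intro w _
    rcases (S.filter (fun v => res v = w)).eq_empty_or_nonempty with h2 | ⟨v0, hv0⟩
    · rw [h2, Finset.card_empty]
      exact Nat.zero_le _
    rw [Finset.mem_filter] at hv0
    let P : Finset (Fin h → N → Bool) := Fintype.piFinset (fun r =>
      if r.1 < k then univ.filter (fun b : N → Bool => cnt b = cnt (v0 r)) else {v0 r})
    have hP : S.filter (fun v => res v = w) ⊆ P := by
      intro v hv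
      rw [Finset.mem_filter] at hv
      rw [Fintype.mem_piFinset]
      have hres : ∀ r : Fin h, k ≤ r.1 → v r = v0 r := by
        intro r hr
        have h3 := congrFun (hv.2.trans hv0.2.symm) ⟨r, hr⟩
        exact h3
      intro r
      by_cases hr : r.1 < k
      · rw [if_pos hr, Finset.mem_filter]
        exact ⟨Finset.mem_univ _, hS v hv.1 v0 hv0.1 hres r⟩
      · rw [if_neg hr, Finset.mem_singleton]
        exact hres r (by omega)
    refine (Finset.card_le_card hP).trans ?_
    rw [Fintype.card_piFinset]
    have h4 : ∀ r : Fin h, (if r.1 < k then univ.filter (fun b : N → Bool => cnt b = cnt (v0 r))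
        else {v0 r}).card ≤
        if r.1 < k then (Fintype.card N).choose (Fintype.card N / 2) else 1 := by
      intro r
      by_cases hr : r.1 < k
      · rw [if_pos hr, if_pos hr]
        exact card_cnt_eq _
      · rw [if_neg hr, if_neg hr, Finset.card_singleton]
    refine (Finset.prod_le_prod' fun r _ => h4 r).trans ?_
    rw [Finset.prod_ite, Finset.prod_const_one, mul_one, Finset.prod_const]
    have h5 : (univ.filter (fun r : Fin h => r.1 < k)).card = k := by
      rw [Fin.card_filter_val_lt]
      omega
    rw [h5]
  have h2 : S.card ≤ ((Fintype.card N).choose (Fintype.card N / 2)) ^ k *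
      (univ : Finset (R → N → Bool)).card :=
    Finset.card_le_mul_card_image_of_maps_to (f := res) (fun v _ => Finset.mem_univ _) _ h1
  refine h2.trans (le_of_eq ?_)
  congr 1
  rw [Finset.card_univ, Fintype.card_fun, Fintype.card_fun, Fintype.card_bool]
  congr 1
  have h6 : Fintype.card R = h - (univ.filter (fun r : Fin h => r.1 < k)).card := by
    rw [Fintype.card_subtype]
    have h7 := Finset.card_filter_add_card_filter_not (s := (univ : Finset (Fin h)))
      (p := fun r : Fin h => r.1 < k)
    rw [Finset.card_univ, Fintype.card_fin] at h7
    have h8 : univ.filter (fun r : Fin h => ¬ r.1 < k) = univ.filter (fun r : Fin h => k ≤ r.1) := by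
      refine Finset.filter_congr fun r _ => ?_
      exact not_lt
    rw [h8] at h7
    omega
  rw [h6, Fin.card_filter_val_lt, min_eq_right hk]

end Pool.Agent.TH170.CM
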