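import Mathlib

/-!
# Vanishing sums of roots of unity and cyclotomic polynomials
-/

namespace Pool.Agent.TH170.CM

open Polynomial

/-- The polynomial with coefficients `a`. -/
noncomputable def polyOf {h : ℕ} (a : Fin h → ℚ) : ℚ[X] := ∑ r : Fin h, monomial r.1 (a r)

theorem coeff_polyOf {h : ℕ} (a : Fin h → ℚ) (r : Fin h) : (polyOf a).coeff r.1 = a r := by
  classical
  rw [polyOf, finsetSum_coeff, Finset.sum_eq_single r]
  · rw [coeff_monomial, if_pos rfl]
  · intro s _ hs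
    rw [coeff_monomial, if_neg (fun h1 => hs (Fin.ext h1))]
  · intro h1
    exact absurd (Finset.mem_univ r) h1

theorem aeval_polyOf {h : ℕ} (a : Fin h → ℚ) (ζ : ℂ) :
    aeval ζ (polyOf a) = ∑ r : Fin h, (a r : ℂ) * ζ ^ r.1 := by
  rw [polyOf, map_sum]
  refine Finset.sum_congr rfl fun r _ => ?_
  rw [aeval_monomial, eq_ratCast]

theorem cyclotomic_dvd_polyOf {h m : ℕ} (hm : 0 < m) (a : Fin h → ℚ) (ζ : ℂ)
    (hζ : IsPrimitiveRoot ζ m) (hz : ∑ r : Fin h, (a r : ℂ) * ζ ^ r.1 = 0) :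
    cyclotomic m ℚ ∣ polyOf a := by
  rw [cyclotomic_eq_minpoly_rat hζ hm]
  refine minpoly.dvd ℚ ζ ?_
  rw [aeval_polyOf]
  exact hz

theorem polyOf_sub {h : ℕ} (a b : Fin h → ℚ) : polyOf a - polyOf b = polyOf (fun r => a r - b r) := by
  rw [polyOf, polyOf, polyOf, ← Finset.sum_sub_distrib]
  refine Finset.sum_congr rfl fun r _ => ?_
  rw [map_sub]

theorem eq_zero_of_dvd {h m : ℕ} (a : Fin h → ℚ) (ha : ∀ r : Fin h, m.totient ≤ r.1 → a r = 0)
    (hd : cyclotomic m ℚ ∣ polyOf a) (r : Fin h) : a r = 0 := by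
  have h0 : polyOf a = 0 := by
    refine eq_zero_of_dvd_of_degree_lt hd ?_
    rw [degree_cyclotomic]
    rw [polyOf]
    refine lt_of_le_of_lt (degree_sum_le _ _) ?_
    rw [Finset.sup_lt_iff (WithBot.bot_lt_coe _)]
    intro r _
    by_cases hr : m.totient ≤ r.1
    · rw [ha r hr, monomial_zero_right, degree_zero]
      exact WithBot.bot_lt_coe _
    · refine lt_of_le_of_lt (degree_monomial_le _ _) ?_
      exact_mod_cast not_le.1 hr
  rw [← coeff_polyOf a r, h0, coeff_zero]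

/-- Two vanishing sums over primitive `m`-th roots of unity that agree in the terms of index at least
`φ(m)` are equal. -/
theorem eq_of_vanish {h m : ℕ} (hm : 0 < m) (a b : Fin h → ℚ) (ζ ζ' : ℂ)
    (hζ : IsPrimitiveRoot ζ m) (hz : ∑ r : Fin h, (a r : ℂ) * ζ ^ r.1 = 0)
    (hζ' : IsPrimitiveRoot ζ' m) (hz' : ∑ r : Fin h, (b r : ℂ) * ζ' ^ r.1 = 0)
    (hab : ∀ r : Fin h, m.totient ≤ r.1 → a r = b r) (r : Fin h) : a r = b r := by
  have h1 : cyclotomic m ℚ ∣ polyOf (fun r => a r - b r) := by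
    rw [← polyOf_sub]
    exact dvd_sub (cyclotomic_dvd_polyOf hm a ζ hζ hz) (cyclotomic_dvd_polyOf hm b ζ' hζ' hz')
  have h2 := eq_zero_of_dvd (fun r => a r - b r) (fun r hr => by rw [hab r hr, sub_self]) h1 r
  exact sub_eq_zero.1 h2

end Pool.Agent.TH170.CM
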