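import Mathlib
import Pool.Agent.TH170.CM.Poly
import Pool.Agent.TH170.CM.Count

/-!
# Odd sign functions on a finite abelian group that are degenerate at a subgroup
-/

namespace Pool.Agent.TH170.CM

open Finset

variable {G : Type*} [CommGroup G]

/-- Functions with values `1`, `-1` that change sign under multiplication by `c`. -/
def IsSgn (c : G) (u : G → ℤ) : Prop := (∀ g, u g = 1 ∨ u g = -1) ∧ ∀ g, u (c * g) = - u g

/-- Some character with kernel `N` is orthogonal to `u`. -/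
def DegAt [Fintype G] (N : Subgroup G) (u : G → ℤ) : Prop :=
  ∃ χ : G →* ℂˣ, χ.ker = N ∧ ∑ g, (u g : ℂ) * (χ g : ℂ) = 0

/-- The sum of a vector of signs. -/
theorem sum_sign {N : Type*} [Fintype N] (u : N → ℤ) (hu : ∀ y, u y = 1 ∨ u y = -1) :
    ∑ y, u y = 2 * (cnt (fun y => decide (u y = 1)) : ℤ) - Fintype.card N := by
  classical
  have h1 : ∀ y, u y = 2 * (if u y = 1 then (1 : ℤ) else 0) - 1 := by
    intro y
    rcases hu y with h | h
    · rw [h, if_pos rfl]; norm_num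
    · rw [h, if_neg (by norm_num)]; norm_num
  rw [Finset.sum_congr rfl fun y _ => h1 y, Finset.sum_sub_distrib, ← Finset.mul_sum,
    Finset.sum_boole, Finset.sum_const, Finset.card_univ, cnt]
  simp only [decide_eq_true_eq]
  simp

/-- A generator `γ` of the group modulo the kernel of a character. -/
theorem exists_gen [Finite G] (χ₀ : G →* ℂˣ) :
    ∃ γ : G, (∀ j : ℕ, γ ^ j ∈ χ₀.ker ↔ χ₀.ker.index ∣ j) ∧
      ∀ g : G, ∃ r < χ₀.ker.index, ∃ y ∈ χ₀.ker, g = γ ^ r * y := by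
  classical
  have hfin : Finite χ₀.range := Finite.of_surjective _ χ₀.rangeRestrict_surjective
  have hcyc : IsCyclic χ₀.range := by
    have := isCyclic_subgroup_units (R := ℂ) χ₀.range
    exact this
  obtain ⟨⟨z, hz⟩, hgen⟩ := hcyc.exists_generator
  obtain ⟨γ, rfl⟩ := hz
  have hidx : χ₀.ker.index = orderOf (χ₀ γ) := by
    rw [Subgroup.index_ker]
    have h1 : Nat.card χ₀.range = orderOf (⟨χ₀ γ, γ, rfl⟩ : χ₀.range) := by
      rw [orderOf_eq_card_of_forall_mem_zpowers hgen]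
    rw [h1]
    exact (Subgroup.orderOf_coe (⟨χ₀ γ, γ, rfl⟩ : χ₀.range)).symm
  refine ⟨γ, fun j => ?_, fun g => ?_⟩
  · rw [MonoidHom.mem_ker, map_pow, hidx, orderOf_dvd_iff_pow_eq_one]
  · have hpos : 0 < orderOf (χ₀ γ) := by
      rw [← hidx]
      exact Nat.pos_of_ne_zero Subgroup.index_ne_zero_of_finite
    obtain ⟨s, hs⟩ := Subgroup.mem_zpowers_iff.1 (hgen ⟨χ₀ g, g, rfl⟩)
    have hs' : (χ₀ γ) ^ s = χ₀ g := congrArg Subtype.val hs
    refine ⟨(s % (orderOf (χ₀ γ) : ℤ)).toNat, ?_, (γ ^ (s % (orderOf (χ₀ γ) : ℤ)).toNat)⁻¹ * g, ?_,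
      by rw [mul_inv_cancel_left]⟩
    · rw [hidx]
      have h1 := Int.emod_lt_of_pos s (Int.natCast_pos.2 hpos)
      have h2 := Int.emod_nonneg s (Int.natCast_ne_zero.2 hpos.ne')
      omega
    · rw [MonoidHom.mem_ker, map_mul, map_inv, map_pow, inv_mul_eq_one, ← zpow_natCast,
        Int.toNat_of_nonneg (Int.emod_nonneg s (Int.natCast_ne_zero.2 hpos.ne')),
        zpow_mod_orderOf, hs']

end Pool.Agent.TH170.CM
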