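import Mathlib
import Pool.Agent.TH170.CM.Group

/-!
# The number of odd sign functions degenerate at a subgroup
-/

namespace Pool.Agent.TH170.CM

open Finset

set_option linter.unusedSectionVars false

variable {G : Type*} [CommGroup G]

theorem totient_even_le {h : ℕ} (he : Even h) (h0 : 0 < h) : 2 * h.totient ≤ h := by
  obtain ⟨a, ha⟩ := he
  have h4 : (Finset.filter (fun a => h.Coprime a) (Finset.range h)).card +
      (Finset.filter (fun a => ¬ h.Coprime a) (Finset.range h)).card = h := by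
    rw [Finset.card_filter_add_card_filter_not, Finset.card_range]
  have h5 : (Finset.filter (fun a => h.Coprime a) (Finset.range h)).card ≤
      (Finset.filter (fun a => ¬ h.Coprime a) (Finset.range h)).card := by
    refine Finset.card_le_card_of_injOn (fun b => b - 1) ?_ ?_
    · intro b hb
      rw [Finset.mem_coe, Finset.mem_filter, Finset.mem_range] at hb
      rw [Finset.mem_coe, Finset.mem_filter, Finset.mem_range]
      have hodd : ¬ 2 ∣ b := fun h2 => by
        have h6 : 2 ∣ Nat.gcd h b := Nat.dvd_gcd ⟨a, by omega⟩ h2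
        rw [hb.2.gcd_eq_one] at h6
        omega
      have hb0 : b ≠ 0 := fun h0 => hodd (by rw [h0]; exact dvd_zero 2)
      refine ⟨by simp only; omega, fun hcop => ?_⟩
      have h6 : 2 ∣ Nat.gcd h (b - 1) := Nat.dvd_gcd ⟨a, by omega⟩ (by omega)
      rw [hcop.gcd_eq_one] at h6
      omega
    · intro b hb b' hb' hbb
      rw [Finset.mem_coe, Finset.mem_filter, Finset.mem_range] at hb hb'
      have hodd : ∀ b, h.Coprime b → b ≠ 0 := fun b hb h2 => by
        rw [h2, Nat.coprime_zero_right] at hb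
        omega
      have h7 := hodd b hb.2
      have h8 := hodd b' hb'.2
      simp only at hbb
      omega
  rw [Nat.totient]
  omega

/-- The data of a generator modulo `N`. -/
structure IsGen (N : Subgroup G) (γ : G) : Prop where
  pow_mem : ∀ j : ℕ, γ ^ j ∈ N ↔ N.index ∣ j
  exists_rep : ∀ g : G, ∃ r < N.index, ∃ y ∈ N, g = γ ^ r * y

theorem exists_isGen [Finite G] (χ₀ : G →* ℂˣ) : ∃ γ : G, IsGen χ₀.ker γ := by
  obtain ⟨γ, h1, h2⟩ := exists_gen χ₀
  exact ⟨γ, h1, h2⟩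

variable [Fintype G] {N : Subgroup G} {γ c : G}

theorem index_pos (N : Subgroup G) : 0 < N.index :=
  Nat.pos_of_ne_zero Subgroup.index_ne_zero_of_finite

theorem IsGen.prim (hγ : IsGen N γ) (χ : G →* ℂˣ) (hχ : χ.ker = N) :
    IsPrimitiveRoot ((χ γ : ℂˣ) : ℂ) N.index := by
  have h1 : ∀ j : ℕ, ((χ γ : ℂˣ) : ℂ) ^ j = 1 ↔ N.index ∣ j := by
    intro j
    rw [← hγ.pow_mem j, ← hχ, MonoidHom.mem_ker, map_pow, ← Units.val_pow_eq_pow_val,
      Units.val_eq_one]
  exact ⟨(h1 _).2 dvd_rfl, fun j hj => (h1 j).1 hj⟩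

theorem IsGen.index_eq (hγ : IsGen N γ) (hc : c * c = 1) (hcN : c ∉ N) :
    ∃ h : ℕ, N.index = 2 * h ∧ c * (γ ^ h)⁻¹ ∈ N := by
  obtain ⟨s, hs, y, hy, hcs⟩ := hγ.exists_rep c
  have h1 : γ ^ (2 * s) ∈ N := by
    have h2 : c * c = γ ^ (2 * s) * (y * y) := by
      rw [hcs, two_mul, pow_add]
      exact mul_mul_mul_comm _ _ _ _
    rw [hc] at h2
    have h3 : γ ^ (2 * s) = (y * y)⁻¹ := eq_inv_of_mul_eq_one_left h2.symm
    rw [h3]
    exact N.inv_mem (N.mul_mem hy hy)
  have h2 := (hγ.pow_mem _).1 h1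
  have hs0 : 0 < s := by
    rcases Nat.eq_zero_or_pos s with h | h
    · exfalso
      apply hcN
      rw [hcs, h, pow_zero, one_mul]
      exact hy
    · exact h
  have h3 : N.index = 2 * s := by
    obtain ⟨q, hq⟩ := h2
    have hq1 : q = 1 := by
      have h4 : q < 2 := by
        by_contra h5
        have h6 : N.index * 2 ≤ N.index * q := Nat.mul_le_mul_left _ (not_lt.1 h5)
        omega
      have h5 : q ≠ 0 := by
        rintro rfl
        omega
      omega
    rw [hq1, mul_one] at hq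
    exact hq.symm
  refine ⟨s, h3, ?_⟩
  rw [hcs, mul_right_comm, mul_inv_cancel, one_mul]
  exact hy

theorem chi_c (χ : G →* ℂˣ) (hχ : χ.ker = N) (hc : c * c = 1) (hcN : c ∉ N) :
    ((χ c : ℂˣ) : ℂ) = -1 := by
  have h1 : ((χ c : ℂˣ) : ℂ) * ((χ c : ℂˣ) : ℂ) = 1 := by
    rw [← Units.val_mul, ← map_mul, hc, map_one, Units.val_one]
  rcases mul_self_eq_one_iff.1 h1 with h2 | h2
  · exfalso
    apply hcN
    rw [← hχ, MonoidHom.mem_ker]
    exact Units.val_eq_one.1 h2
  · exact h2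

/-- The parametrization of the group. -/
theorem IsGen.bijective (hγ : IsGen N γ) {h : ℕ}
    (hh : N.index = 2 * h) (hch : c * (γ ^ h)⁻¹ ∈ N) :
    Function.Bijective (fun x : Bool × Fin h × N =>
      (if x.1 then c else 1) * (γ ^ (x.2.1 : ℕ) * (x.2.2 : G))) := by
  classical
  rw [Fintype.bijective_iff_injective_and_card]
  constructor
  · rintro ⟨e, r, y⟩ ⟨e', r', y'⟩ he
    simp only at he
    have key : ∀ (e e' : Bool) (r r' : Fin h) (y y' : N),
        (if e then c else 1) * (γ ^ (r : ℕ) * (y : G)) =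
          (if e' then c else 1) * (γ ^ (r' : ℕ) * (y' : G)) → ∃ z ∈ N,
          γ ^ ((r : ℕ) + if e then h else 0) = γ ^ ((r' : ℕ) + if e' then h else 0) * z := by
      intro e e' r r' y y' he
      have h1 : ∀ e : Bool, ∃ z ∈ N, (if e then c else 1) = γ ^ (if e then h else 0) * z := by
        intro e
        cases e
        · exact ⟨1, N.one_mem, by simp⟩
        · refine ⟨c * (γ ^ h)⁻¹, hch, ?_⟩
          simp only [if_true]
          rw [mul_comm c, mul_inv_cancel_left]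
      obtain ⟨z, hz, hze⟩ := h1 e
      obtain ⟨z', hz', hze'⟩ := h1 e'
      rw [hze, hze'] at he
      refine ⟨z' * y' * (z * y)⁻¹, N.mul_mem (N.mul_mem hz' y'.2) (N.inv_mem (N.mul_mem hz y.2)), ?_⟩
      rw [pow_add, pow_add]
      have h2 : γ ^ (r : ℕ) * γ ^ (if e then h else 0) * (z * y) =
          γ ^ (r' : ℕ) * γ ^ (if e' then h else 0) * (z' * y') := by
        calc γ ^ (r : ℕ) * γ ^ (if e then h else 0) * (z * y)
            = γ ^ (if e then h else 0) * z * (γ ^ (r : ℕ) * y) := by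
              rw [mul_comm (γ ^ (r : ℕ)) (γ ^ (if e then h else 0)), mul_mul_mul_comm]
          _ = γ ^ (if e' then h else 0) * z' * (γ ^ (r' : ℕ) * y') := he
          _ = _ := by rw [mul_comm (γ ^ (r' : ℕ)) (γ ^ (if e' then h else 0)), mul_mul_mul_comm]
      rw [← mul_assoc]
      exact eq_mul_inv_of_mul_eq h2
    have hlt : ∀ (e : Bool) (r : Fin h), (r : ℕ) + (if e then h else 0) < N.index := by
      intro e r
      have := r.2
      cases e <;> simp <;> omega
    have hinj : ∀ a b : ℕ, a < N.index → b < N.index → a ≤ b → (∃ z ∈ N, γ ^ b = γ ^ a * z) →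
        a = b := by
      rintro a b ha hb hab ⟨z, hz, hzz⟩
      have h1 : γ ^ (b - a) ∈ N := by
        have h2 : γ ^ b = γ ^ a * γ ^ (b - a) := by rw [← pow_add, Nat.add_sub_cancel' hab]
        rw [h2] at hzz
        rw [mul_left_cancel hzz]
        exact hz
      have h2 := (hγ.pow_mem _).1 h1
      have h3 : b - a = 0 := Nat.eq_zero_of_dvd_of_lt h2 (by omega)
      omega
    have h1 : (r : ℕ) + (if e then h else 0) = (r' : ℕ) + (if e' then h else 0) := by
      rcases le_total ((r : ℕ) + (if e then h else 0)) ((r' : ℕ) + (if e' then h else 0)) with h2 | h2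
      · exact hinj _ _ (hlt e r) (hlt e' r') h2 (key e' e r' r y' y he.symm)
      · exact (hinj _ _ (hlt e' r') (hlt e r) h2 (key e e' r r' y y' he)).symm
    have hr : r = r' ∧ e = e' := by
      have := r.2
      have := r'.2
      cases e <;> cases e' <;> simp only [if_true, if_false, Bool.false_eq_true] at h1 <;>
        first
        | exact ⟨Fin.ext (by omega), rfl⟩
        | (exfalso; omega)
    obtain ⟨rfl, rfl⟩ := hr
    have h2 : (y : G) = y' := mul_left_cancel (mul_left_cancel he)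
    rw [Subtype.ext h2]
  · rw [Fintype.card_prod, Fintype.card_prod, Fintype.card_bool, Fintype.card_fin, ← mul_assoc, ← hh,
      ← Nat.card_eq_fintype_card (α := N), ← Nat.card_eq_fintype_card (α := G)]
    exact N.index_mul_card

/-- The class sums. -/
def F (γ : G) (N : Subgroup G) [Fintype N] (u : G → ℤ) (r : ℕ) : ℤ := ∑ y : N, u (γ ^ r * y)

theorem IsGen.sum_eq [Fintype N] (hγ : IsGen N γ) (hc : c * c = 1) (hcN : c ∉ N) {h : ℕ}
    (hh : N.index = 2 * h) (hch : c * (γ ^ h)⁻¹ ∈ N) (u : G → ℤ) (hu : IsSgn c u)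
    (χ : G →* ℂˣ) (hχ : χ.ker = N) :
    ∑ g, (u g : ℂ) * (χ g : ℂ) = 2 * ∑ r : Fin h, ((F γ N u r : ℤ) : ℂ) * (χ γ : ℂ) ^ (r : ℕ) := by
  classical
  have hb := hγ.bijective hh hch
  rw [← Function.Bijective.sum_comp hb (fun g => (u g : ℂ) * (χ g : ℂ)), Fintype.sum_prod_type,
    Fintype.sum_bool]
  have h1 : ∀ x : Fin h × N, (u (c * (γ ^ (x.1 : ℕ) * (x.2 : G))) : ℂ) *
      (χ (c * (γ ^ (x.1 : ℕ) * (x.2 : G))) : ℂ) =
      (u (γ ^ (x.1 : ℕ) * (x.2 : G)) : ℂ) * (χ γ : ℂ) ^ (x.1 : ℕ) := by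
    intro x
    rw [hu.2, map_mul, Units.val_mul, chi_c χ hχ hc hcN, map_mul, map_pow, Units.val_mul,
      Units.val_pow_eq_pow_val]
    have h2 : χ (x.2 : G) = 1 := by
      rw [← MonoidHom.mem_ker, hχ]
      exact x.2.2
    rw [h2, Units.val_one, mul_one]
    push_cast
    ring
  have h2 : ∀ x : Fin h × N, (u (γ ^ (x.1 : ℕ) * (x.2 : G)) : ℂ) *
      (χ (γ ^ (x.1 : ℕ) * (x.2 : G)) : ℂ) =
      (u (γ ^ (x.1 : ℕ) * (x.2 : G)) : ℂ) * (χ γ : ℂ) ^ (x.1 : ℕ) := by
    intro x
    rw [map_mul, map_pow, Units.val_mul, Units.val_pow_eq_pow_val]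
    have h2 : χ (x.2 : G) = 1 := by
      rw [← MonoidHom.mem_ker, hχ]
      exact x.2.2
    rw [h2, Units.val_one, mul_one]
  simp only [if_true, Bool.false_eq_true, if_false, one_mul]
  rw [Finset.sum_congr rfl fun x _ => h1 x, Finset.sum_congr rfl fun x _ => h2 x, ← two_mul,
    Fintype.sum_prod_type]
  congr 1
  refine Finset.sum_congr rfl fun r _ => ?_
  rw [F]
  push_cast
  rw [Finset.sum_mul]

/-- The sign vectors of the classes. -/
def vec (γ : G) (N : Subgroup G) (h : ℕ) (u : G → ℤ) : Fin h → N → Bool :=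
  fun r y => decide (u (γ ^ (r : ℕ) * (y : G)) = 1)

theorem F_eq [Fintype N] {u : G → ℤ} (hu : IsSgn c u) {h : ℕ} (r : Fin h) :
    F γ N u r = 2 * (cnt (vec γ N h u r) : ℤ) - Fintype.card N :=
  sum_sign (fun y : N => u (γ ^ (r : ℕ) * (y : G))) (fun _ => hu.1 _)

theorem IsGen.vec_inj [Fintype N] (hγ : IsGen N γ) {h : ℕ}
    (hh : N.index = 2 * h) (hch : c * (γ ^ h)⁻¹ ∈ N) {u u' : G → ℤ} (hu : IsSgn c u)
    (hu' : IsSgn c u') (hv : vec γ N h u = vec γ N h u') : u = u' := by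
  have h1 : ∀ (r : Fin h) (y : N), u (γ ^ (r : ℕ) * (y : G)) = u' (γ ^ (r : ℕ) * (y : G)) := by
    intro r y
    have h2 : decide (u (γ ^ (r : ℕ) * (y : G)) = 1) = decide (u' (γ ^ (r : ℕ) * (y : G)) = 1) :=
      congrFun (congrFun hv r) y
    have h3 : u (γ ^ (r : ℕ) * (y : G)) = 1 ↔ u' (γ ^ (r : ℕ) * (y : G)) = 1 :=
      decide_eq_decide.1 h2
    rcases hu.1 (γ ^ (r : ℕ) * (y : G)) with h4 | h4
    · rw [h4, h3.1 h4]
    · rcases hu'.1 (γ ^ (r : ℕ) * (y : G)) with h5 | h5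
      · rw [h3.2 h5, h5]
      · rw [h4, h5]
  funext g
  obtain ⟨⟨e, r, y⟩, rfl⟩ := (hγ.bijective hh hch).2 g
  cases e
  · simp only [Bool.false_eq_true, if_false, one_mul]
    exact h1 r y
  · simp only [if_true]
    rw [hu.2, hu'.2, h1 r y]

/-- **The number of sign functions degenerate at `N`.** -/
theorem ncard_degAt [DecidableEq G] (hc : c * c = 1) (hcN : c ∉ N) :
    {u : G → ℤ | IsSgn c u ∧ DegAt N u}.ncard ≤
      ((Nat.card N).choose (Nat.card N / 2)) ^ N.index.totient *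
        (2 ^ Nat.card N) ^ (N.index / 2 - N.index.totient) := by
  classical
  rcases Set.eq_empty_or_nonempty {u : G → ℤ | IsSgn c u ∧ DegAt N u} with hemp | ⟨u0, -, χ₀, hχ₀, -⟩
  · rw [hemp, Set.ncard_empty]
    exact Nat.zero_le _
  obtain ⟨γ, hγ⟩ := exists_isGen χ₀
  rw [hχ₀] at hγ
  obtain ⟨h, hh, hch⟩ := hγ.index_eq hc hcN
  have hpos := index_pos N
  have hk : N.index.totient ≤ h := by
    rw [hh]
    have h1 : (2 * h).totient ≤ h := by
      have h2 : 2 * (2 * h).totient ≤ 2 * h := by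
        rcases Nat.even_or_odd h with he | ho
        · rw [Nat.totient_mul_of_prime_of_dvd Nat.prime_two he.two_dvd]
          have h3 := totient_even_le he (by omega)
          omega
        · rw [Nat.totient_mul_of_prime_of_not_dvd Nat.prime_two
            (fun h2 => (Nat.not_even_iff_odd.2 ho) (even_iff_two_dvd.2 h2))]
          have := Nat.totient_le h
          omega
      omega
    exact h1
  let T : Finset (Fin h → N → Bool) :=
    univ.filter (fun v => ∃ u, IsSgn c u ∧ DegAt N u ∧ vec γ N h u = v)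
  have h1 : {u : G → ℤ | IsSgn c u ∧ DegAt N u}.ncard ≤ T.card := by
    rw [← Set.ncard_coe_finset]
    refine Set.ncard_le_ncard_of_injOn (vec γ N h) ?_ ?_ (Finset.finite_toSet T)
    · intro u hu
      rw [Finset.mem_coe, Finset.mem_filter]
      exact ⟨Finset.mem_univ _, u, hu.1, hu.2, rfl⟩
    · intro u hu u' hu' hv
      exact hγ.vec_inj hh hch hu.1 hu'.1 hv
  refine h1.trans ?_
  have hhalf : N.index / 2 = h := by omega
  rw [hhalf, Nat.card_eq_fintype_card]
  refine card_le h N.index.totient hk T ?_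
  rintro v hv v' hv' hvv r
  rw [Finset.mem_filter] at hv hv'
  obtain ⟨-, u, hu, ⟨χ, hχ, hz⟩, rfl⟩ := hv
  obtain ⟨-, u', hu', ⟨χ', hχ', hz'⟩, rfl⟩ := hv'
  rw [hγ.sum_eq hc hcN hh hch u hu χ hχ] at hz
  rw [hγ.sum_eq hc hcN hh hch u' hu' χ' hχ'] at hz'
  have hz1 : ∑ r : Fin h, (((F γ N u r : ℤ) : ℚ) : ℂ) * (χ γ : ℂ) ^ (r : ℕ) = 0 := by
    have h3 := (mul_eq_zero.1 hz).resolve_left two_ne_zero
    rw [← h3]
    refine Finset.sum_congr rfl fun r _ => ?_
    push_cast
    rfl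
  have hz1' : ∑ r : Fin h, (((F γ N u' r : ℤ) : ℚ) : ℂ) * (χ' γ : ℂ) ^ (r : ℕ) = 0 := by
    have h3 := (mul_eq_zero.1 hz').resolve_left two_ne_zero
    rw [← h3]
    refine Finset.sum_congr rfl fun r _ => ?_
    push_cast
    rfl
  have h2 := eq_of_vanish hpos (fun r : Fin h => ((F γ N u r : ℤ) : ℚ))
    (fun r : Fin h => ((F γ N u' r : ℤ) : ℚ)) _ _ (hγ.prim χ hχ) hz1 (hγ.prim χ' hχ') hz1'
    (fun r hr => by
      rw [F_eq hu, F_eq hu', hvv r hr]) r
  have h3 : F γ N u r = F γ N u' r := by exact_mod_cast h2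
  rw [F_eq hu, F_eq hu'] at h3
  omega

/-- If the index is a power of two and `N` has odd order, no sign function is degenerate at `N`. -/
theorem not_degAt (hc : c * c = 1) (hcN : c ∉ N) {a : ℕ} (ha : N.index = 2 ^ a)
    (hodd : Odd (Nat.card N)) {u : G → ℤ} (hu : IsSgn c u) : ¬ DegAt N u := by
  classical
  rintro ⟨χ, hχ, hz⟩
  obtain ⟨γ, hγ⟩ := exists_isGen χ
  rw [hχ] at hγ
  obtain ⟨h, hh, hch⟩ := hγ.index_eq hc hcN
  have hpos := index_pos N
  rw [hγ.sum_eq hc hcN hh hch u hu χ hχ] at hz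
  have hz1 : ∑ r : Fin h, (((F γ N u r : ℤ) : ℚ) : ℂ) * (χ γ : ℂ) ^ (r : ℕ) = 0 := by
    have h3 := (mul_eq_zero.1 hz).resolve_left two_ne_zero
    rw [← h3]
    refine Finset.sum_congr rfl fun r _ => ?_
    push_cast
    rfl
  have hh0 : 0 < h := by omega
  have htot : N.index.totient = h := by
    rw [ha]
    rw [ha] at hh
    have ha0 : 0 < a := by
      rcases Nat.eq_zero_or_pos a with h0 | h0
      · rw [h0] at hh
        omega
      · exact h0
    rw [Nat.totient_prime_pow Nat.prime_two ha0]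
    obtain ⟨b, rfl⟩ := Nat.exists_eq_succ_of_ne_zero ha0.ne'
    rw [pow_succ] at hh
    simp only [Nat.succ_eq_add_one, Nat.add_sub_cancel]
    omega
  have h2 := eq_zero_of_dvd (fun r : Fin h => ((F γ N u r : ℤ) : ℚ)) (fun r hr => by
    rw [htot] at hr
    exact absurd r.2 (not_lt.2 hr)) (cyclotomic_dvd_polyOf hpos _ _ (hγ.prim χ hχ) hz1) ⟨0, hh0⟩
  have h3 : F γ N u ((⟨0, hh0⟩ : Fin h) : ℕ) = 0 := by exact_mod_cast h2
  rw [F_eq hu] at h3
  rw [Nat.card_eq_fintype_card] at hodd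
  obtain ⟨b, hb⟩ := hodd
  omega

end Pool.Agent.TH170.CM
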