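import Mathlib
import Pool.Agent.TH170.CM.CountAt

/-!
# Relations give characters
-/

namespace Pool.Agent.TH170.CM

open Finset

variable {G : Type*} [CommGroup G] [Fintype G]

theorem exists_char (r : G → ℤ) (hr : r ≠ 0) :
    ∃ χ : G →* ℂˣ, ∑ g, (r g : ℂ) * (χ g : ℂ) ≠ 0 := by
  classical
  by_contra hcon
  push Not at hcon
  have h1 : ∀ ψ : AddChar (Additive G) ℂ, ∑ a : Additive G, (r (Additive.toMul a) : ℂ) * ψ a = 0 := by
    intro ψ
    let f : G →* ℂ :=
      { toFun := fun g => ψ (Additive.ofMul g)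
        map_one' := ψ.map_zero_eq_one
        map_mul' := fun a b => ψ.map_add_eq_mul _ _ }
    have h2 := hcon f.toHomUnits
    rw [← h2]
    exact Fintype.sum_equiv Additive.toMul _ _ (fun a => rfl)
  have h2 : ∀ f : Additive G → ℂ, ∑ a : Additive G, (r (Additive.toMul a) : ℂ) * f a = 0 := by
    intro f
    have hf : f ∈ Submodule.span ℂ (Set.range (AddChar.complexBasis (Additive G))) := by
      rw [Module.Basis.span_eq]
      exact Submodule.mem_top
    induction hf using Submodule.span_induction with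
    | mem f hf =>
      obtain ⟨ψ, rfl⟩ := hf
      rw [AddChar.complexBasis_apply]
      exact h1 ψ
    | zero => simp
    | add a b _ _ ha hb =>
      simp only [Pi.add_apply, mul_add, Finset.sum_add_distrib, ha, hb, add_zero]
    | smul z a _ ha =>
      simp only [Pi.smul_apply, smul_eq_mul]
      have h3 : ∀ x : Additive G, (r (Additive.toMul x) : ℂ) * (z * a x) =
          z * ((r (Additive.toMul x) : ℂ) * a x) := fun x => by ring
      rw [Finset.sum_congr rfl fun x _ => h3 x, ← Finset.mul_sum, ha, mul_zero]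
  apply hr
  have h3 := h2 (fun a => (r (Additive.toMul a) : ℂ))
  have h4 : ∑ a : Additive G, r (Additive.toMul a) * r (Additive.toMul a) = 0 := by
    have h5 : ((∑ a : Additive G, r (Additive.toMul a) * r (Additive.toMul a) : ℤ) : ℂ) = 0 := by
      rw [← h3]
      push_cast
      rfl
    exact_mod_cast h5
  funext g
  have h6 := (Finset.sum_eq_zero_iff_of_nonneg
    (fun a _ => mul_self_nonneg (r (Additive.toMul a)))).1 h4 (Additive.ofMul g) (Finset.mem_univ _)
  exact mul_self_eq_zero.1 h6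

/-- A nontrivial antisymmetric relation between the translates of `u` gives a subgroup at which `u`
is degenerate. -/
theorem exists_degAt {c : G} (hc : c * c = 1) (u : G → ℤ) (r : G → ℤ) (hr : r ≠ 0)
    (hodd : ∀ g, r (c * g) = - r g) (hrel : ∀ s, ∑ g, r g * u (s * g) = 0) :
    ∃ N : Subgroup G, c ∉ N ∧ DegAt N u := by
  classical
  obtain ⟨ψ, hψ⟩ := exists_char r hr
  have hcψ : ((ψ c : ℂˣ) : ℂ) ≠ 1 := by
    intro h1
    apply hψ
    have h2 : ∑ g, (r g : ℂ) * (ψ g : ℂ) = - ∑ g, (r g : ℂ) * (ψ g : ℂ) := by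
      calc ∑ g, (r g : ℂ) * (ψ g : ℂ) = ∑ g, (r (c * g) : ℂ) * (ψ (c * g) : ℂ) :=
            (Fintype.sum_equiv (Equiv.mulLeft c) _ _ (fun g => rfl)).symm
        _ = ∑ g, -((r g : ℂ) * (ψ g : ℂ)) := by
            refine Finset.sum_congr rfl fun g _ => ?_
            rw [hodd, map_mul, Units.val_mul, h1]
            push_cast
            ring
        _ = _ := by rw [Finset.sum_neg_distrib]
    have h3 : (2 : ℂ) * ∑ g, (r g : ℂ) * (ψ g : ℂ) = 0 := by linear_combination h2
    exact (mul_eq_zero.1 h3).resolve_left two_ne_zero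
  refine ⟨(ψ⁻¹).ker, ?_, ψ⁻¹, rfl, ?_⟩
  · intro h1
    rw [MonoidHom.mem_ker, MonoidHom.inv_apply, inv_eq_one] at h1
    exact hcψ (by rw [h1, Units.val_one])
  · have h1 : ∑ s, ((∑ g, r g * u (s * g) : ℤ) : ℂ) * ((ψ⁻¹ : G →* ℂˣ) s : ℂ) = 0 := by
      refine Finset.sum_eq_zero fun s _ => ?_
      rw [hrel s, Int.cast_zero, zero_mul]
    have h2 : ∑ s, ((∑ g, r g * u (s * g) : ℤ) : ℂ) * ((ψ⁻¹ : G →* ℂˣ) s : ℂ) =
        (∑ g, (r g : ℂ) * (ψ g : ℂ)) * ∑ t, (u t : ℂ) * ((ψ⁻¹ : G →* ℂˣ) t : ℂ) := by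
      have h3 : ∀ s, ((∑ g, r g * u (s * g) : ℤ) : ℂ) * ((ψ⁻¹ : G →* ℂˣ) s : ℂ) =
          ∑ g, (r g : ℂ) * (ψ g : ℂ) * ((u (s * g) : ℂ) * ((ψ⁻¹ : G →* ℂˣ) (s * g) : ℂ)) := by
        intro s
        push_cast
        rw [Finset.sum_mul]
        refine Finset.sum_congr rfl fun g _ => ?_
        have h4 : (ψ g : ℂ) * ((ψ⁻¹ : G →* ℂˣ) (s * g) : ℂ) = ((ψ⁻¹ : G →* ℂˣ) s : ℂ) := by
          rw [← Units.val_mul]
          congr 1
          rw [map_mul, MonoidHom.inv_apply, MonoidHom.inv_apply, mul_comm (ψ s)⁻¹,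
            mul_inv_cancel_left]
        rw [← h4]
        ring
      rw [Finset.sum_congr rfl fun s _ => h3 s, Finset.sum_comm, Finset.sum_mul]
      refine Finset.sum_congr rfl fun g _ => ?_
      rw [← Finset.mul_sum]
      congr 1
      exact Fintype.sum_equiv (Equiv.mulRight g) _ _ (fun s => rfl)
    rw [h2] at h1
    exact (mul_eq_zero.1 h1).resolve_left hψ

end Pool.Agent.TH170.CM
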