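import Mathlib
import Pool.Agent.TH170.CM.Fourier
import Pool.Agent.TH170.CM.Defs

/-!
# The number of degenerate odd sign functions on a finite abelian group
-/

namespace Pool.Agent.TH170.CM

open Finset

variable {G : Type*} [CommGroup G] [Fintype G]

/-- The subgroups which are kernels of characters and do not contain `c`. -/
def cyc (c : G) : Set (Subgroup G) := {N | c ∉ N ∧ ∃ χ : G →* ℂˣ, χ.ker = N}

theorem weight_nonneg (m n : ℕ) : 0 ≤ weight m n := by
  rw [weight]
  split_ifs
  · exact le_refl _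
  · positivity

theorem ncard_degAt_weight [DecidableEq G] {c : G} {N : Subgroup G} (hc : c * c = 1) (hcN : c ∉ N) :
    ({u : G → ℤ | IsSgn c u ∧ DegAt N u}.ncard : ℝ) ≤
      2 ^ (Fintype.card G / 2) * weight N.index (Nat.card N) := by
  classical
  rcases Set.eq_empty_or_nonempty {u : G → ℤ | IsSgn c u ∧ DegAt N u} with hemp | hne
  · rw [hemp, Set.ncard_empty, Nat.cast_zero]
    exact mul_nonneg (by positivity) (weight_nonneg _ _)
  rw [weight]
  by_cases hpar : (∃ a, N.index = 2 ^ a) ∧ Odd (Nat.card N)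
  · exfalso
    obtain ⟨u, hu, hdeg⟩ := hne
    obtain ⟨⟨a, ha⟩, hodd⟩ := hpar
    exact not_degAt hc hcN ha hodd hu hdeg
  rw [if_neg hpar]
  have h1 := ncard_degAt (N := N) hc hcN
  obtain ⟨u, hu, χ, hχ, hz⟩ := hne
  obtain ⟨γ, hγ⟩ := exists_isGen χ
  rw [hχ] at hγ
  obtain ⟨h, hh, hch⟩ := hγ.index_eq hc hcN
  have hcard : N.index * Nat.card N = Fintype.card G := by
    rw [← Nat.card_eq_fintype_card]
    exact N.index_mul_card
  have hhalf : Fintype.card G / 2 = h * Nat.card N := by
    rw [← hcard, hh, mul_assoc, Nat.mul_div_cancel_left _ (by norm_num : 0 < 2)]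
  have hk : N.index.totient ≤ h := by
    by_contra hlt
    have h2 : Nat.Coprime N.index 2 → False := by
      intro h3
      rw [hh] at h3
      have := Nat.Coprime.eq_one_of_dvd (Nat.Coprime.symm h3) (Dvd.intro _ rfl)
      omega
    -- the totient of an even number is at most its half
    have h4 : 2 * N.index.totient ≤ N.index := by
      rw [hh]
      have hpos := index_pos N
      have hh0 : 0 < h := by omega
      have h5 : (2 * h).totient ≤ h := by
        rcases Nat.even_or_odd h with he | ho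
        · rw [Nat.totient_mul_of_prime_of_dvd Nat.prime_two he.two_dvd]
          have h6 := totient_even_le he hh0
          omega
        · rw [Nat.totient_mul_of_prime_of_not_dvd Nat.prime_two
            (fun h2 => (Nat.not_even_iff_odd.2 ho) (even_iff_two_dvd.2 h2))]
          have := Nat.totient_le h
          omega
      omega
    omega
  calc ({u : G → ℤ | IsSgn c u ∧ DegAt N u}.ncard : ℝ)
      ≤ (((Nat.card N).choose (Nat.card N / 2)) ^ N.index.totient *
        (2 ^ Nat.card N) ^ (N.index / 2 - N.index.totient) : ℕ) := by exact_mod_cast h1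
    _ = 2 ^ (Fintype.card G / 2) *
        (((Nat.card N).choose (Nat.card N / 2) : ℝ) / 2 ^ Nat.card N) ^ N.index.totient := by
        rw [hhalf]
        have h3 : N.index / 2 = h := by omega
        rw [h3]
        push_cast
        rw [div_pow]
        have h4 : (2 : ℝ) ^ (h * Nat.card N) = (2 ^ Nat.card N) ^ N.index.totient *
            (2 ^ Nat.card N) ^ (h - N.index.totient) := by
          rw [← pow_add, Nat.add_sub_cancel' hk, ← pow_mul, mul_comm]
        rw [h4]
        field_simp

theorem ncard_deg [DecidableEq G] {c : G} (hc : c * c = 1) :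
    ({u : G → ℤ | IsSgn c u ∧ ∃ N : Subgroup G, c ∉ N ∧ DegAt N u}.ncard : ℝ) ≤
      2 ^ (Fintype.card G / 2) * ∑ N ∈ (Set.toFinite (cyc c)).toFinset,
        weight N.index (Nat.card N) := by
  classical
  have hfin : ∀ N : Subgroup G, {u : G → ℤ | IsSgn c u ∧ DegAt N u}.Finite := by
    intro N
    refine Set.Finite.subset (Set.Finite.pi' (fun _ : G => (Set.finite_insert.2
      (Set.finite_singleton (-1 : ℤ)) : ({1, -1} : Set ℤ).Finite))) ?_
    intro u hu g
    rcases hu.1.1 g with h | h
    · exact Or.inl h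
    · exact Or.inr h
  have h1 : {u : G → ℤ | IsSgn c u ∧ ∃ N : Subgroup G, c ∉ N ∧ DegAt N u} ⊆
      ⋃ N ∈ (Set.toFinite (cyc c)).toFinset, {u : G → ℤ | IsSgn c u ∧ DegAt N u} := by
    rintro u ⟨hu, N, hcN, hN⟩
    rw [Set.mem_iUnion₂]
    refine ⟨N, ?_, hu, hN⟩
    rw [Set.Finite.mem_toFinset]
    obtain ⟨χ, hχ, -⟩ := hN
    exact ⟨hcN, χ, hχ⟩
  have h2 : {u : G → ℤ | IsSgn c u ∧ ∃ N : Subgroup G, c ∉ N ∧ DegAt N u}.ncard ≤
      ∑ N ∈ (Set.toFinite (cyc c)).toFinset, {u : G → ℤ | IsSgn c u ∧ DegAt N u}.ncard := by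
    refine (Set.ncard_le_ncard h1 ?_).trans (Finset.set_ncard_biUnion_le _ _)
    exact Set.Finite.biUnion (Finset.finite_toSet _) (fun N _ => hfin N)
  calc ({u : G → ℤ | IsSgn c u ∧ ∃ N : Subgroup G, c ∉ N ∧ DegAt N u}.ncard : ℝ)
      ≤ ∑ N ∈ (Set.toFinite (cyc c)).toFinset, ({u : G → ℤ | IsSgn c u ∧ DegAt N u}.ncard : ℝ) := by
        exact_mod_cast h2
    _ ≤ ∑ N ∈ (Set.toFinite (cyc c)).toFinset,
          2 ^ (Fintype.card G / 2) * weight N.index (Nat.card N) := by
        refine Finset.sum_le_sum fun N hN => ?_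
        rw [Set.Finite.mem_toFinset] at hN
        exact ncard_degAt_weight hc hN.1
    _ = _ := by rw [Finset.mul_sum]

end Pool.Agent.TH170.CM
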