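import Mathlib
import Pool.Agent.TH170.CM.Bound

/-!
# Estimates for binomial coefficients and totients
-/

namespace Pool.Agent.TH170.CM

open Finset

theorem centralBinom_sq (k : ℕ) : (Nat.centralBinom k) ^ 2 * (2 * k + 1) ≤ 16 ^ k := by
  induction k with
  | zero => simp
  | succ k ih =>
    have h1 := Nat.succ_mul_centralBinom_succ k
    have h2 : ((k + 1) ^ 2) * ((Nat.centralBinom (k + 1)) ^ 2 * (2 * (k + 1) + 1)) ≤
        ((k + 1) ^ 2) * 16 ^ (k + 1) := by
      calc ((k + 1) ^ 2) * ((Nat.centralBinom (k + 1)) ^ 2 * (2 * (k + 1) + 1))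
          = ((k + 1) * Nat.centralBinom (k + 1)) ^ 2 * (2 * (k + 1) + 1) := by ring
        _ = (2 * (2 * k + 1) * Nat.centralBinom k) ^ 2 * (2 * (k + 1) + 1) := by rw [h1]
        _ = 4 * ((2 * k + 1) * (2 * k + 3)) * ((Nat.centralBinom k) ^ 2 * (2 * k + 1)) := by ring
        _ ≤ 4 * ((2 * k + 1) * (2 * k + 3)) * 16 ^ k := Nat.mul_le_mul_left _ ih
        _ ≤ 4 * (4 * (k + 1) ^ 2) * 16 ^ k := by
            refine Nat.mul_le_mul_right _ (Nat.mul_le_mul_left _ ?_)
            nlinarith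
        _ = ((k + 1) ^ 2) * 16 ^ (k + 1) := by ring
    exact Nat.le_of_mul_le_mul_left h2 (by positivity)

/-- The largest atom of a sum of `n` independent signs. -/
noncomputable def pr (n : ℕ) : ℝ := (n.choose (n / 2) : ℝ) / 2 ^ n

theorem pr_nonneg (n : ℕ) : 0 ≤ pr n := by
  rw [pr]
  positivity

theorem pr_even (k : ℕ) : pr (2 * k) ^ 2 * (2 * k + 1) ≤ 1 := by
  have h1 : (2 * k).choose (2 * k / 2) = Nat.centralBinom k := by
    rw [Nat.mul_div_cancel_left _ (by norm_num : 0 < 2), Nat.centralBinom]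
  rw [pr, h1, div_pow, ← pow_mul, div_mul_eq_mul_div, div_le_one (by positivity)]
  have h2 := centralBinom_sq k
  have h3 : ((2 : ℝ) ^ (2 * k * 2)) = 16 ^ k := by
    rw [mul_comm 2 k, mul_assoc, pow_mul']
    norm_num
  rw [h3]
  exact_mod_cast h2

theorem pr_odd (k : ℕ) : pr (2 * k + 1) = pr (2 * k + 2) := by
  have h1 : (2 * k + 1) / 2 = k := by omega
  have h2 : (2 * k + 2) / 2 = k + 1 := by omega
  rw [pr, pr, h1, h2]
  have h3 : (2 * k + 2).choose (k + 1) = 2 * (2 * k + 1).choose k := by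
    rw [Nat.choose_succ_succ' (2 * k + 1) k]
    have h4 : (2 * k + 1).choose (k + 1) = (2 * k + 1).choose k := by
      rw [← Nat.choose_symm_of_eq_add]
      omega
    omega
  rw [h3, pow_succ (2 : ℝ) (2 * k + 1)]
  push_cast
  field_simp

theorem pr_sq (n : ℕ) : pr n ^ 2 * (n + 1) ≤ 1 := by
  rcases Nat.even_or_odd' n with ⟨k, rfl | rfl⟩
  · have := pr_even k
    push_cast
    exact this
  · rw [pr_odd]
    have h1 := pr_even (k + 1)
    rw [show 2 * (k + 1) = 2 * k + 2 by ring] at h1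
    push_cast at h1 ⊢
    refine le_trans ?_ h1
    refine mul_le_mul_of_nonneg_left ?_ (by positivity)
    linarith

theorem pr_le_half {n : ℕ} (hn : 1 ≤ n) : pr n ≤ 1 / 2 := by
  rcases Nat.lt_or_ge n 3 with h | h
  · interval_cases n
    · rw [pr]; norm_num
    · rw [pr]; norm_num
  · have h1 := pr_sq n
    have h2 : (4 : ℝ) ≤ n + 1 := by
      have : (3 : ℝ) ≤ n := by exact_mod_cast h
      linarith
    have h3 : pr n ^ 2 * 4 ≤ 1 := le_trans (mul_le_mul_of_nonneg_left h2 (by positivity)) h1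
    nlinarith [pr_nonneg n]

theorem pr_sq_le {n : ℕ} (hn : 1 ≤ n) : pr n ^ 2 ≤ 1 / n := by
  have h1 := pr_sq n
  have hn' : (0 : ℝ) < n := by exact_mod_cast hn
  rw [le_div_iff₀ hn']
  refine le_trans (mul_le_mul_of_nonneg_left ?_ (by positivity)) h1
  linarith

theorem pr_le_sqrt {n : ℕ} (hn : 1 ≤ n) : pr n ≤ 1 / Real.sqrt n := by
  have hn' : (0 : ℝ) < n := by exact_mod_cast hn
  have h1 : 1 / Real.sqrt n = Real.sqrt (1 / n) := by
    rw [Real.sqrt_div zero_le_one, Real.sqrt_one]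
  rw [h1]
  exact Real.le_sqrt_of_sq_le (pr_sq_le hn)

/-- The totient is at least of the order of the square root. -/
theorem totient_sq (m : ℕ) : m ≤ (if Even m then 2 else 1) * m.totient ^ 2 := by
  induction m using Nat.recOnPosPrimePosCoprime with
  | prime_pow p n hp hn =>
    obtain ⟨k, rfl⟩ := Nat.exists_eq_succ_of_ne_zero hn.ne'
    rw [Nat.totient_prime_pow_succ hp]
    rcases hp.eq_two_or_odd' with rfl | hodd
    · have he : Even (2 ^ (k + 1)) := by
        rw [pow_succ, mul_comm]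
        exact even_two_mul _
      rw [if_pos he, Nat.succ_eq_add_one, pow_succ]
      have h1 : 1 ≤ 2 ^ k := Nat.one_le_two_pow
      nlinarith
    · have ho : ¬ Even (p ^ (k + 1)) := Nat.not_even_iff_odd.2 hodd.pow
      rw [if_neg ho, one_mul, Nat.succ_eq_add_one, pow_succ, mul_pow]
      have hp3 : 3 ≤ p := by
        rcases hodd with ⟨a, ha⟩
        have := hp.two_le
        omega
      obtain ⟨q, rfl⟩ := Nat.exists_eq_add_of_le hp3
      have h1 : 1 ≤ (3 + q) ^ k := Nat.one_le_pow _ _ (by omega)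
      have h2 : 3 + q ≤ (3 + q - 1) ^ 2 := by
        have : 3 + q - 1 = q + 2 := by omega
        rw [this]
        nlinarith
      calc (3 + q) ^ k * (3 + q) ≤ ((3 + q) ^ k * (3 + q) ^ k) * (3 + q - 1) ^ 2 :=
            Nat.mul_le_mul (Nat.le_mul_of_pos_left _ h1) h2
        _ = ((3 + q) ^ k) ^ 2 * (3 + q - 1) ^ 2 := by ring
  | zero => simp
  | one => simp
  | coprime a b ha hb hab iha ihb =>
    rw [Nat.totient_mul hab]
    by_cases hea : Even a
    · have hob : ¬ Even b := by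
        intro heb
        have h1 : 2 ∣ Nat.gcd a b := Nat.dvd_gcd hea.two_dvd heb.two_dvd
        rw [hab.gcd_eq_one] at h1
        omega
      rw [if_pos hea] at iha
      rw [if_neg hob, one_mul] at ihb
      rw [if_pos (hea.mul_right b)]
      calc a * b ≤ (2 * a.totient ^ 2) * b.totient ^ 2 := Nat.mul_le_mul iha ihb
        _ = _ := by ring
    · rw [if_neg hea, one_mul] at iha
      by_cases heb : Even b
      · rw [if_pos heb] at ihb
        rw [if_pos (heb.mul_left a)]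
        calc a * b ≤ a.totient ^ 2 * (2 * b.totient ^ 2) := Nat.mul_le_mul iha ihb
          _ = _ := by ring
      · rw [if_neg heb, one_mul] at ihb
        have : ¬ Even (a * b) := by
          rw [Nat.even_mul]
          tauto
        rw [if_neg this, one_mul]
        calc a * b ≤ a.totient ^ 2 * b.totient ^ 2 := Nat.mul_le_mul iha ihb
          _ = _ := by ring

theorem totient_sq' (m : ℕ) : m ≤ 2 * m.totient ^ 2 := by
  refine (totient_sq m).trans (Nat.mul_le_mul_right _ ?_)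
  split_ifs <;> norm_num

theorem four_le_totient {m : ℕ} (he : Even m) (h0 : 0 < m) (h2 : m ≠ 2) (h4 : m ≠ 4) (h6 : m ≠ 6) :
    4 ≤ m.totient := by
  by_contra hlt
  have h1 := totient_sq' m
  have h3 : m.totient ≤ 3 := by omega
  have h5 : m ≤ 18 := by nlinarith
  interval_cases m <;> first
    | omega
    | (exfalso; revert he; decide)
    | (exfalso; revert hlt; decide)

/-- The constant in the comparison of powers. -/
theorem exists_const : ∃ B : ℝ, 0 < B ∧ ∀ k : ℕ, (k : ℝ) ^ 8 ≤ B * 2 ^ k := by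
  have h1 := tendsto_pow_const_div_const_pow_of_one_lt 8 (r := (2 : ℝ)) (by norm_num)
  obtain ⟨B, hB⟩ := h1.bddAbove_range
  refine ⟨max B 1, lt_of_lt_of_le one_pos (le_max_right _ _), fun k => ?_⟩
  have h2 : (k : ℝ) ^ 8 / 2 ^ k ≤ B := hB ⟨k, rfl⟩
  rw [div_le_iff₀ (by positivity)] at h2
  exact h2.trans (mul_le_mul_of_nonneg_right (le_max_left _ _) (by positivity))

theorem exists_sum : ∃ C : ℝ, 0 ≤ C ∧ ∀ M : ℕ,
    ∑ m ∈ Finset.range M, (m : ℝ) ^ 2 / 2 ^ m.totient ≤ C := by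
  obtain ⟨B, hB0, hB⟩ := exists_const
  have hsum : Summable (fun m : ℕ => 1 / (m : ℝ) ^ 2) := Real.summable_one_div_nat_pow.2 (by norm_num)
  refine ⟨16 * B * ∑' m : ℕ, 1 / (m : ℝ) ^ 2, by positivity, fun M => ?_⟩
  have h1 : ∀ m : ℕ, (m : ℝ) ^ 2 / 2 ^ m.totient ≤ 16 * B * (1 / (m : ℝ) ^ 2) := by
    intro m
    rcases Nat.eq_zero_or_pos m with rfl | hm
    · simp
    have hm' : (0 : ℝ) < m := by exact_mod_cast hm
    have h2 : (m : ℝ) ≤ 2 * (m.totient : ℝ) ^ 2 := by exact_mod_cast totient_sq' m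
    have h3 : (m : ℝ) ^ 4 ≤ 16 * (m.totient : ℝ) ^ 8 := by
      calc (m : ℝ) ^ 4 ≤ (2 * (m.totient : ℝ) ^ 2) ^ 4 := pow_le_pow_left₀ hm'.le h2 4
        _ = 16 * (m.totient : ℝ) ^ 8 := by ring
    have h4 : (m : ℝ) ^ 4 ≤ 16 * (B * 2 ^ m.totient) :=
      h3.trans (mul_le_mul_of_nonneg_left (hB _) (by norm_num))
    rw [mul_one_div, div_le_div_iff₀ (by positivity) (by positivity)]
    calc (m : ℝ) ^ 2 * (m : ℝ) ^ 2 = (m : ℝ) ^ 4 := by ring
      _ ≤ 16 * (B * 2 ^ m.totient) := h4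
      _ = _ := by ring
  calc ∑ m ∈ Finset.range M, (m : ℝ) ^ 2 / 2 ^ m.totient
      ≤ ∑ m ∈ Finset.range M, 16 * B * (1 / (m : ℝ) ^ 2) := Finset.sum_le_sum fun m _ => h1 m
    _ = 16 * B * ∑ m ∈ Finset.range M, 1 / (m : ℝ) ^ 2 := by rw [Finset.mul_sum]
    _ ≤ 16 * B * ∑' m : ℕ, 1 / (m : ℝ) ^ 2 := by
        refine mul_le_mul_of_nonneg_left ?_ (by positivity)
        exact hsum.sum_le_tsum _ (fun m _ => by positivity)

end Pool.Agent.TH170.CM
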