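import Mathlib
import Pool.Agent.TH170.CM.Bound
import Pool.Agent.H204R3.CM.Main
import Pool.Agent.H977R3.CM.Aut

/-!
# Degenerate CM types of abelian CM fields
-/

namespace Pool.Agent.TH170.CM

open NumberField Finset Pool.Agent.H204R3.CM Pool.Agent.H977R3.CM Module

set_option linter.unusedSectionVars false

section
variable {E : Type*} [Field E] [NumberField E] [IsCMField E]

/-- The complex conjugation as an element of the Galois group. -/
noncomputable def conjQ (E : Type*) [Field E] [NumberField E] [IsCMField E] : E ≃ₐ[ℚ] E :=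
  AlgEquiv.ofRingEquiv (f := (IsCMField.complexConj E : E ≃+* E)) (fun x => by
    rw [eq_ratCast, map_ratCast])

theorem conjQ_apply (x : E) : conjQ E x = IsCMField.complexConj E x := rfl

theorem conjQ_mul : conjQ E * conjQ E = 1 := by
  ext x
  rw [AlgEquiv.mul_apply, conjQ_apply, conjQ_apply, IsCMField.complexConj_apply_apply,
    AlgEquiv.one_apply]

theorem comp_conjQ (φ : E →+* ℂ) (g : E ≃ₐ[ℚ] E) :
    φ.comp ((conjQ E * g : E ≃ₐ[ℚ] E) : E →+* E) =
      ComplexEmbedding.conjugate (φ.comp (g : E →+* E)) := by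
  ext x
  rw [ComplexEmbedding.conjugate_coe_eq]
  change φ (IsCMField.complexConj E (g x)) = _
  rw [IsCMField.complexEmbedding_complexConj]
  rfl

variable [IsGalois ℚ E]

theorem emb_bijective (φ₀ : E →+* ℂ) :
    Function.Bijective (fun g : E ≃ₐ[ℚ] E => φ₀.comp (g : E →+* E)) := by
  constructor
  · intro g g' h
    ext x
    exact φ₀.injective (RingHom.congr_fun h x)
  · intro φ
    obtain ⟨σ, hσ⟩ := ComplexEmbedding.exists_comp_symm_eq_of_comp_eq (k := ℚ) φ₀ φ
      (Subsingleton.elim _ _)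
    exact ⟨σ.symm, hσ⟩

/-- The sign function on the Galois group. -/
noncomputable def usgn (φ₀ : E →+* ℂ) (Φ : Set (E →+* ℂ)) (g : E ≃ₐ[ℚ] E) : ℤ :=
  sgn Φ (φ₀.comp (g : E →+* E))

end

section
variable {E : Type*} [Field E] [NumberField E] [IsCMField E] [IsAbelianGalois ℚ E]

open scoped IsMulCommutative

theorem isSgn_usgn (φ₀ : E →+* ℂ) {Φ : Set (E →+* ℂ)} (hΦ : IsCMType Φ) :
    IsSgn (conjQ E) (usgn φ₀ Φ) := by
  classical
  constructor
  · intro g
    rw [usgn, sgn]
    split_ifs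
    · exact Or.inl rfl
    · exact Or.inr rfl
  · intro g
    rw [usgn, usgn, comp_conjQ, sgn, sgn]
    by_cases h : φ₀.comp (g : E →+* E) ∈ Φ
    · rw [if_pos h, if_neg ((hΦ _).1 h)]
    · rw [if_neg h, if_pos (by
        by_contra h2
        exact h ((hΦ _).2 h2)), neg_neg]

theorem usgn_inj (φ₀ : E →+* ℂ) {Φ Φ' : Set (E →+* ℂ)} (h : usgn φ₀ Φ = usgn φ₀ Φ') : Φ = Φ' := by
  classical
  ext φ
  obtain ⟨g, rfl⟩ := (emb_bijective φ₀).2 φ
  have h1 : sgn Φ (φ₀.comp (g : E →+* E)) = sgn Φ' (φ₀.comp (g : E →+* E)) := congrFun h g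
  rw [sgn, sgn] at h1
  by_cases h2 : φ₀.comp (g : E →+* E) ∈ Φ <;> by_cases h3 : φ₀.comp (g : E →+* E) ∈ Φ'
  · exact ⟨fun _ => h3, fun _ => h2⟩
  · rw [if_pos h2, if_neg h3] at h1
    omega
  · rw [if_neg h2, if_pos h3] at h1
    omega
  · exact ⟨fun h4 => absurd h4 h2, fun h4 => absurd h4 h3⟩

theorem deg_usgn (φ₀ : E →+* ℂ) {Φ : Set (E →+* ℂ)} (hd : Degenerate Φ) :
    ∃ N : Subgroup (E ≃ₐ[ℚ] E), conjQ E ∉ N ∧ DegAt N (usgn φ₀ Φ) := by
  classical
  obtain ⟨b, hb, hodd, hrel⟩ := hd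
  refine exists_degAt conjQ_mul (usgn φ₀ Φ) (fun g => b (φ₀.comp (g : E →+* E))) ?_ ?_ ?_
  · intro h
    apply hb
    funext φ
    obtain ⟨g, rfl⟩ := (emb_bijective φ₀).2 φ
    exact congrFun h g
  · intro g
    rw [comp_conjQ, hodd]
  · intro s
    obtain ⟨σ, hσ⟩ := exists_aut φ₀ (s : E ≃+* E)
    rw [← hrel σ]
    refine Fintype.sum_bijective _ (emb_bijective φ₀) _ _ fun g => ?_
    rw [usgn]
    congr 2
    ext x
    exact (hσ (g x)).symm

/-- The fixed field of a subgroup. -/
theorem mem_imagCyclic {N : Subgroup (E ≃ₐ[ℚ] E)} (hN : N ∈ cyc (conjQ E)) :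
    IntermediateField.fixedField N ∈ ImagCyclic E := by
  classical
  obtain ⟨hcN, χ, hχ⟩ := hN
  have hab : IsAbelianGalois ℚ (IntermediateField.fixedField N) :=
    IsAbelianGalois.tower_bot ℚ (IntermediateField.fixedField N) E
  refine ⟨inferInstance, ?_, ?_⟩
  · have hfin : Finite χ.range := Finite.of_surjective _ χ.rangeRestrict_surjective
    have hcyc : IsCyclic χ.range := isCyclic_subgroup_units (R := ℂ) χ.range
    have h1 : IsCyclic ((E ≃ₐ[ℚ] E) ⧸ N) := by
      subst hχ
      exact (QuotientGroup.quotientKerEquivRange χ).isCyclic.2 hcyc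
    exact (IsGalois.normalAutEquivQuotient N).isCyclic.1 h1
  · intro hreal
    apply hcN
    have h1 := IntermediateField.fixingSubgroup_fixedField N
    rw [← h1, IntermediateField.mem_fixingSubgroup_iff]
    intro x hx
    obtain ⟨φ⟩ : Nonempty (E →+* ℂ) := inferInstance
    have h2 : ComplexEmbedding.IsReal
        (φ.comp (algebraMap (IntermediateField.fixedField N) E)) :=
      IsTotallyReal.complexEmbedding_isReal _
    have h3 := RingHom.congr_fun (ComplexEmbedding.isReal_iff.1 h2) ⟨x, hx⟩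
    rw [ComplexEmbedding.conjugate_coe_eq] at h3
    apply φ.injective
    change φ (IsCMField.complexConj E x) = φ x
    rw [IsCMField.complexEmbedding_complexConj]
    exact h3

theorem finrank_fixed (N : Subgroup (E ≃ₐ[ℚ] E)) :
    finrank ℚ (IntermediateField.fixedField N) = N.index ∧
      finrank (IntermediateField.fixedField N) E = Nat.card N := by
  have h1 : finrank (IntermediateField.fixedField N) E = Nat.card N :=
    IntermediateField.finrank_fixedField_eq_card N
  refine ⟨?_, h1⟩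
  have h2 : finrank ℚ (IntermediateField.fixedField N) *
      finrank (IntermediateField.fixedField N) E = finrank ℚ E :=
    finrank_mul_finrank _ _ _
  rw [h1, ← IsGalois.card_aut_eq_finrank ℚ E, ← N.index_mul_card] at h2
  exact Nat.eq_of_mul_eq_mul_right Nat.card_pos h2

/-- **The number of degenerate CM types of an abelian CM field.** -/
theorem ncard_degenerate (E : Type*) [Field E] [NumberField E] [IsCMField E]
    [IsAbelianGalois ℚ E] :
    ((degenerateTypes E).ncard : ℝ) ≤ 2 ^ (finrank ℚ E / 2) *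
      ∑ᶠ K ∈ ImagCyclic E, weight (finrank ℚ K) (finrank K E) := by
  classical
  obtain ⟨φ₀⟩ : Nonempty (E →+* ℂ) := inferInstance
  have hcard : Fintype.card (E ≃ₐ[ℚ] E) = finrank ℚ E := by
    rw [← Nat.card_eq_fintype_card]
    exact IsGalois.card_aut_eq_finrank ℚ E
  have hfinu : {u : (E ≃ₐ[ℚ] E) → ℤ | IsSgn (conjQ E) u ∧
      ∃ N : Subgroup (E ≃ₐ[ℚ] E), conjQ E ∉ N ∧ DegAt N u}.Finite := by
    refine Set.Finite.subset (Set.Finite.pi' (fun _ : E ≃ₐ[ℚ] E => (Set.finite_insert.2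
      (Set.finite_singleton (-1 : ℤ)) : ({1, -1} : Set ℤ).Finite))) ?_
    intro u hu g
    rcases hu.1.1 g with h | h
    · exact Or.inl h
    · exact Or.inr h
  have h1 : (degenerateTypes E).ncard ≤ {u : (E ≃ₐ[ℚ] E) → ℤ | IsSgn (conjQ E) u ∧
      ∃ N : Subgroup (E ≃ₐ[ℚ] E), conjQ E ∉ N ∧ DegAt N u}.ncard := by
    refine Set.ncard_le_ncard_of_injOn (usgn φ₀) ?_ ?_ hfinu
    · intro Φ hΦ
      exact ⟨isSgn_usgn φ₀ hΦ.1, deg_usgn φ₀ hΦ.2⟩
    · intro Φ _ Φ' _ h
      exact usgn_inj φ₀ h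
  have h2 := ncard_deg (G := E ≃ₐ[ℚ] E) (c := conjQ E) conjQ_mul
  have h3 : ∑ N ∈ (Set.toFinite (cyc (conjQ E))).toFinset, weight N.index (Nat.card N) ≤
      ∑ᶠ K ∈ ImagCyclic E, weight (finrank ℚ K) (finrank K E) := by
    have hfinI : Finite (IntermediateField ℚ E) :=
      Finite.of_injective _ (IsGalois.intermediateFieldEquivSubgroup (F := ℚ) (E := E)).injective
    have hfin : (ImagCyclic E).Finite := Set.toFinite _
    rw [finsum_mem_eq_finite_toFinset_sum _ hfin]
    have h4 : ∑ N ∈ (Set.toFinite (cyc (conjQ E))).toFinset, weight N.index (Nat.card N) =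
        ∑ K ∈ ((Set.toFinite (cyc (conjQ E))).toFinset).image
          (fun N : Subgroup (E ≃ₐ[ℚ] E) => IntermediateField.fixedField N),
          weight (finrank ℚ K) (finrank K E) := by
      rw [Finset.sum_image]
      · refine Finset.sum_congr rfl fun N _ => ?_
        rw [(finrank_fixed N).1, (finrank_fixed N).2]
      · intro N _ N' _ h
        have h5 := congrArg IntermediateField.fixingSubgroup h
        simp only at h5
        rwa [IntermediateField.fixingSubgroup_fixedField,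
          IntermediateField.fixingSubgroup_fixedField] at h5
    rw [h4]
    refine Finset.sum_le_sum_of_subset_of_nonneg ?_ (fun K _ _ => weight_nonneg _ _)
    intro K hK
    rw [Finset.mem_image] at hK
    obtain ⟨N, hN, rfl⟩ := hK
    rw [Set.Finite.mem_toFinset] at hN ⊢
    exact mem_imagCyclic hN
  calc ((degenerateTypes E).ncard : ℝ)
      ≤ ({u : (E ≃ₐ[ℚ] E) → ℤ | IsSgn (conjQ E) u ∧
        ∃ N : Subgroup (E ≃ₐ[ℚ] E), conjQ E ∉ N ∧ DegAt N u}.ncard : ℝ) := by exact_mod_cast h1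
    _ ≤ _ := h2
    _ ≤ _ := by
        rw [hcard]
        exact mul_le_mul_of_nonneg_left h3 (by positivity)

end

end Pool.Agent.TH170.CM
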