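import Mathlib
import Pool.Agent.TH170.CM.Asym
import Pool.Agent.TH170.CM.Field

/-!
# The number of degenerate CM types: uniform bounds
-/

namespace Pool.Agent.TH170.CM

open NumberField Finset Pool.Agent.H204R3.CM Pool.Agent.H977R3.CM Module

section group
variable {G : Type*} [CommGroup G] [Fintype G]

theorem ncard_cycOf_le (c : G) (m : ℕ) (hm : m ≠ 0) (s : Finset G)
    (hs : Subgroup.closure (s : Set G) = ⊤) : (cycOf c m).ncard ≤ m ^ s.card := by
  classical
  have hch : ∀ N : cycOf c m, ∃ χ : G →* ℂˣ, χ.ker = N.1 := fun N => N.2.1.2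
  choose f hf using hch
  have hroot : ∀ (N : cycOf c m) (g : G), f N g ∈ rootsOfUnity m ℂ := by
    intro N g
    rw [mem_rootsOfUnity, ← map_pow, ← MonoidHom.mem_ker, hf N]
    have h1 := Subgroup.pow_index_mem N.1 g
    rwa [N.2.2] at h1
  let F : cycOf c m → (s → rootsOfUnity m ℂ) := fun N x => ⟨f N x, hroot N x⟩
  have hinj : Function.Injective F := by
    intro N N' h
    apply Subtype.ext
    rw [← hf N, ← hf N']
    congr 1
    refine MonoidHom.eq_of_eqOn_dense hs ?_
    intro x hx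
    exact congrArg Subtype.val (congrFun h ⟨x, hx⟩)
  have hne : NeZero m := ⟨hm⟩
  have hfr : Finite (rootsOfUnity m ℂ) := inferInstance
  have h2 := Nat.card_le_card_of_injective F hinj
  have h3 : Nat.card (rootsOfUnity m ℂ) = m := Complex.card_rootsOfUnity m
  rw [Nat.card_fun, h3, Nat.card_eq_fintype_card (α := s), Fintype.card_coe] at h2
  exact h2

theorem cycOf_two_empty (c : G) (hc : c * c = 1) (hcyc : IsCyclic G) {g : ℕ}
    (hg : Fintype.card G = 2 * g) (he : Even g) : cycOf c 2 = ∅ := by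
  rw [Set.eq_empty_iff_forall_notMem]
  rintro N ⟨⟨hcN, -⟩, hN⟩
  apply hcN
  obtain ⟨γ, hγ⟩ := hcyc.exists_generator
  obtain ⟨k, hk⟩ := (mem_powers_iff_mem_zpowers.2 (hγ c))
  simp only at hk
  have hord : orderOf γ = 2 * g := by
    rw [orderOf_eq_card_of_forall_mem_zpowers hγ, Nat.card_eq_fintype_card, hg]
  have h1 : γ ^ (2 * k) = 1 := by
    rw [two_mul, pow_add, hk, hc]
  have h2 := orderOf_dvd_of_pow_eq_one h1
  rw [hord] at h2
  have h3 : g ∣ k := Nat.dvd_of_mul_dvd_mul_left (by norm_num) h2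
  obtain ⟨a, ha⟩ := he
  obtain ⟨b, hb⟩ := h3
  have h4 : k = 2 * (a * b) := by rw [hb, ha]; ring
  rw [← hk, h4, mul_comm 2 (a * b), pow_mul]
  have h5 := Subgroup.pow_index_mem N (γ ^ (a * b))
  rwa [hN] at h5

end group

/-- The number of imaginary cyclic subfields of degree `m` over the rational numbers. -/
noncomputable def numImagCyclic (E : Type*) [Field E] [NumberField E] (m : ℕ) : ℕ :=
  {K : IntermediateField ℚ E | K ∈ ImagCyclic E ∧ finrank ℚ K = m}.ncard

section field
variable (E : Type) [Field E] [NumberField E] [IsCMField E] [IsAbelianGalois ℚ E]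

open scoped IsMulCommutative

theorem ncard_degenerate_group :
    ((degenerateTypes E).ncard : ℝ) ≤ 2 ^ (finrank ℚ E / 2) *
      ∑ N ∈ (Set.toFinite (cyc (conjQ E))).toFinset, weight N.index (Nat.card N) := by
  classical
  obtain ⟨φ₀⟩ : Nonempty (E →+* ℂ) := inferInstance
  have hcard : Fintype.card (E ≃ₐ[ℚ] E) = finrank ℚ E := by
    rw [← Nat.card_eq_fintype_card]
    exact IsGalois.card_aut_eq_finrank ℚ E
  have hfinu : {u : (E ≃ₐ[ℚ] E) → ℤ | IsSgn (conjQ E) u ∧
      ∃ N : Subgroup (E ≃ₐ[ℚ] E), conjQ E ∉ N ∧ DegAt N u}.Finite := by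
    refine Set.Finite.subset (Set.Finite.pi' (fun _ : E ≃ₐ[ℚ] E => (Set.finite_insert.2
      (Set.finite_singleton (-1 : ℤ)) : ({1, -1} : Set ℤ).Finite))) ?_
    intro u hu g
    rcases hu.1.1 g with h | h
    · exact Or.inl h
    · exact Or.inr h
  have h1 : (degenerateTypes E).ncard ≤ {u : (E ≃ₐ[ℚ] E) → ℤ | IsSgn (conjQ E) u ∧
      ∃ N : Subgroup (E ≃ₐ[ℚ] E), conjQ E ∉ N ∧ DegAt N u}.ncard := by
    refine Set.ncard_le_ncard_of_injOn (usgn φ₀) ?_ ?_ hfinu
    · intro Φ hΦ
      exact ⟨isSgn_usgn φ₀ hΦ.1, deg_usgn φ₀ hΦ.2⟩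
    · intro Φ _ Φ' _ h
      exact usgn_inj φ₀ h
  have h2 := ncard_deg (G := E ≃ₐ[ℚ] E) (c := conjQ E) conjQ_mul
  rw [hcard] at h2
  refine le_trans ?_ h2
  exact_mod_cast h1

theorem ncard_cycOf_field (m : ℕ) : (cycOf (conjQ E) m).ncard ≤ numImagCyclic E m := by
  classical
  have hfinI : Finite (IntermediateField ℚ E) :=
    Finite.of_injective _ (IsGalois.intermediateFieldEquivSubgroup (F := ℚ) (E := E)).injective
  refine Set.ncard_le_ncard_of_injOn
    (fun N : Subgroup (E ≃ₐ[ℚ] E) => IntermediateField.fixedField N) ?_ ?_ (Set.toFinite _)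
  · intro N hN
    exact ⟨mem_imagCyclic hN.1, (finrank_fixed N).1.trans hN.2⟩
  · intro N _ N' _ h
    have h5 := congrArg IntermediateField.fixingSubgroup h
    simp only at h5
    rwa [IntermediateField.fixingSubgroup_fixedField,
      IntermediateField.fixingSubgroup_fixedField] at h5

end field

open scoped IsMulCommutative in
/-- **Uniform bounds for the number of degenerate CM types.** -/
theorem exists_uniform : ∃ C : ℝ, 0 ≤ C ∧
    ∀ (E : Type) [Field E] [NumberField E] [IsCMField E] [IsAbelianGalois ℚ E] (g : ℕ),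
      finrank ℚ E = 2 * g →
      ((degenerateTypes E).ncard : ℝ) ≤ 2 ^ g *
        ((if Even g then numImagCyclic E 2 / Real.sqrt g else 0) +
          (2 * numImagCyclic E 4 + 3 * numImagCyclic E 6 + C) / g) ∧
      (IsCyclic (E ≃ₐ[ℚ] E) → ((degenerateTypes E).ncard : ℝ) ≤ 2 ^ g * (C / g)) ∧
      ∀ s : Finset (E ≃ₐ[ℚ] E), Subgroup.closure (s : Set (E ≃ₐ[ℚ] E)) = ⊤ →
        ((degenerateTypes E).ncard : ℝ) ≤ 2 ^ g *
          ((if Even g then 2 ^ s.card / Real.sqrt g else 0) + C * 6 ^ s.card / g) := by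
  classical
  obtain ⟨C, hC0, hC⟩ := exists_bound
  refine ⟨C + 26, by linarith, fun E _ _ _ _ g hg => ?_⟩
  have hcard : Fintype.card (E ≃ₐ[ℚ] E) = 2 * g := by
    rw [← Nat.card_eq_fintype_card, ← hg]
    exact IsGalois.card_aut_eq_finrank ℚ E
  have hg0 : 0 < g := by
    have : 0 < Fintype.card (E ≃ₐ[ℚ] E) := Fintype.card_pos
    omega
  have hgR : (0 : ℝ) < g := by exact_mod_cast hg0
  have h1 := ncard_degenerate_group E
  have h2 := hC (E ≃ₐ[ℚ] E) (conjQ E) g conjQ_mul hcard
  have hhalf : finrank ℚ E / 2 = g := by omega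
  rw [hhalf] at h1
  have h3 : ∀ x : ℝ, (if Even g then ((cycOf (conjQ E) 2).ncard : ℝ) / Real.sqrt g else 0) +
      (2 * (cycOf (conjQ E) 4).ncard + 3 * (cycOf (conjQ E) 6).ncard + C) / g ≤ x →
      ((degenerateTypes E).ncard : ℝ) ≤ 2 ^ g * x := fun x hx =>
    h1.trans (mul_le_mul_of_nonneg_left (h2.trans hx) (by positivity))
  refine ⟨?_, ?_, ?_⟩
  · apply h3
    have e2 : ((cycOf (conjQ E) 2).ncard : ℝ) ≤ numImagCyclic E 2 := by
      exact_mod_cast ncard_cycOf_field E 2
    have e4 : ((cycOf (conjQ E) 4).ncard : ℝ) ≤ numImagCyclic E 4 := by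
      exact_mod_cast ncard_cycOf_field E 4
    have e6 : ((cycOf (conjQ E) 6).ncard : ℝ) ≤ numImagCyclic E 6 := by
      exact_mod_cast ncard_cycOf_field E 6
    refine add_le_add ?_ ?_
    · split_ifs
      · exact div_le_div_of_nonneg_right e2 (Real.sqrt_nonneg _)
      · exact le_refl _
    · exact div_le_div_of_nonneg_right (by linarith) hgR.le
  · intro hcyc
    apply h3
    obtain ⟨γ, hγ⟩ := hcyc.exists_generator
    have hcl : Subgroup.closure (({γ} : Finset (E ≃ₐ[ℚ] E)) : Set (E ≃ₐ[ℚ] E)) = ⊤ := by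
      rw [Finset.coe_singleton, ← Subgroup.zpowers_eq_closure]
      exact (Subgroup.eq_top_iff' _).2 hγ
    have e4 : ((cycOf (conjQ E) 4).ncard : ℝ) ≤ 4 := by
      have := ncard_cycOf_le (conjQ E) 4 (by norm_num) {γ} hcl
      rw [Finset.card_singleton, pow_one] at this
      exact_mod_cast this
    have e6 : ((cycOf (conjQ E) 6).ncard : ℝ) ≤ 6 := by
      have := ncard_cycOf_le (conjQ E) 6 (by norm_num) {γ} hcl
      rw [Finset.card_singleton, pow_one] at this
      exact_mod_cast this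
    have e2 : (if Even g then ((cycOf (conjQ E) 2).ncard : ℝ) / Real.sqrt g else 0) = 0 := by
      split_ifs with he
      · rw [cycOf_two_empty (conjQ E) conjQ_mul hcyc hcard he, Set.ncard_empty, Nat.cast_zero,
          zero_div]
      · rfl
    rw [e2, zero_add]
    exact div_le_div_of_nonneg_right (by linarith) hgR.le
  · intro s hs
    apply h3
    have hp : ∀ m : ℕ, m ≠ 0 → ((cycOf (conjQ E) m).ncard : ℝ) ≤ (m : ℝ) ^ s.card := by
      intro m hm
      exact_mod_cast ncard_cycOf_le (conjQ E) m hm s hs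
    have e2 := hp 2 (by norm_num)
    have e4 := hp 4 (by norm_num)
    have e6 := hp 6 (by norm_num)
    have h46 : ((4 : ℕ) : ℝ) ^ s.card ≤ 6 ^ s.card :=
      pow_le_pow_left₀ (by norm_num) (by norm_num) _
    have h1 : (1 : ℝ) ≤ 6 ^ s.card := one_le_pow₀ (by norm_num)
    refine add_le_add ?_ ?_
    · split_ifs
      · exact div_le_div_of_nonneg_right (by exact_mod_cast e2) (Real.sqrt_nonneg _)
      · exact le_refl _
    · refine div_le_div_of_nonneg_right ?_ hgR.le
      push_cast at e6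
      nlinarith

end Pool.Agent.TH170.CM
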