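import Mathlib
import Pool.Agent.TH170.CM.Cor
import Pool.Agent.W548.Tt.LO

/-!
# Weighted odd sign functions on a finite abelian group
-/

namespace Pool.Agent.TH170.CM

open Finset

set_option linter.unusedSectionVars false

/-- The sum of the weights `M`, with the signs given by `b`. -/
def wsum {N : Type*} [Fintype N] (M : N → ℤ) (b : N → Bool) : ℤ := ∑ y, if b y then M y else - M y

theorem card_wsum_eq {N : Type*} [Fintype N] [DecidableEq N] (M : N → ℤ) (hM : ∀ y, M y ≠ 0)
    (s : ℤ) : (univ.filter (fun b : N → Bool => wsum M b = s)).card ≤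
      (Fintype.card N).choose (Fintype.card N / 2) := by
  classical
  have h1 := Pool.Agent.W548.Tt.lo_powerset_real (univ : Finset N) (fun y => 2 * (M y : ℝ))
    (fun y _ => mul_ne_zero two_ne_zero (by exact_mod_cast hM y)) ((s : ℝ) + ∑ y, (M y : ℝ))
  refine le_trans ?_ (h1.trans (le_of_eq (by rw [Pool.Agent.W548.Ab.mid, Finset.card_univ])))
  refine Finset.card_le_card_of_injOn (fun b => univ.filter (fun y => b y = true)) ?_ ?_
  · intro b hb
    rw [Finset.mem_coe, Finset.mem_filter] at hb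
    rw [Finset.mem_coe, Finset.mem_filter, Finset.mem_powerset]
    refine ⟨Finset.subset_univ _, ?_⟩
    rw [← hb.2, wsum, Finset.sum_filter]
    push_cast
    rw [← Finset.sum_add_distrib]
    refine Finset.sum_congr rfl fun y _ => ?_
    cases h : b y
    · simp
    · simp
      ring
  · intro b _ b' _ h
    funext y
    have h1 : (y ∈ univ.filter (fun y => b y = true)) ↔ (y ∈ univ.filter (fun y => b' y = true)) := by
      have h2 : univ.filter (fun y => b y = true) = univ.filter (fun y => b' y = true) := h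
      rw [h2]
    simp only [Finset.mem_filter, Finset.mem_univ, true_and] at h1
    exact Bool.eq_iff_iff.2 h1

/-- Families of sign vectors, in `h` classes of `|N|` elements, which are determined outside the
first `k` classes together with the weighted sums over the first `k` classes. -/
theorem card_leW {N : Type*} [Fintype N] [DecidableEq N] (h k : ℕ) (hk : k ≤ h)
    (M : Fin h → N → ℤ) (hM : ∀ r y, M r y ≠ 0)
    (S : Finset (Fin h → N → Bool))
    (hS : ∀ v ∈ S, ∀ v' ∈ S, (∀ r : Fin h, k ≤ r.1 → v r = v' r) →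
      ∀ r, wsum (M r) (v r) = wsum (M r) (v' r)) :
    S.card ≤ ((Fintype.card N).choose (Fintype.card N / 2)) ^ k * (2 ^ Fintype.card N) ^ (h - k) := by
  classical
  let R : Type := {r : Fin h // k ≤ r.1}
  let res : (Fin h → N → Bool) → (R → N → Bool) := fun v r => v r.1
  have h1 : ∀ w ∈ (univ : Finset (R → N → Bool)), (S.filter (fun v => res v = w)).card ≤
      ((Fintype.card N).choose (Fintype.card N / 2)) ^ k := by
    intro w _
    rcases (S.filter (fun v => res v = w)).eq_empty_or_nonempty with h2 | ⟨v0, hv0⟩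
    · rw [h2, Finset.card_empty]
      exact Nat.zero_le _
    rw [Finset.mem_filter] at hv0
    let P : Finset (Fin h → N → Bool) := Fintype.piFinset (fun r =>
      if r.1 < k then univ.filter (fun b : N → Bool => wsum (M r) b = wsum (M r) (v0 r))
        else {v0 r})
    have hP : S.filter (fun v => res v = w) ⊆ P := by
      intro v hv
      rw [Finset.mem_filter] at hv
      rw [Fintype.mem_piFinset]
      have hres : ∀ r : Fin h, k ≤ r.1 → v r = v0 r := by
        intro r hr
        have h3 := congrFun (hv.2.trans hv0.2.symm) ⟨r, hr⟩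
        exact h3
      intro r
      by_cases hr : r.1 < k
      · rw [if_pos hr, Finset.mem_filter]
        exact ⟨Finset.mem_univ _, hS v hv.1 v0 hv0.1 hres r⟩
      · rw [if_neg hr, Finset.mem_singleton]
        exact hres r (by omega)
    refine (Finset.card_le_card hP).trans ?_
    rw [Fintype.card_piFinset]
    have h4 : ∀ r : Fin h, (if r.1 < k then univ.filter (fun b : N → Bool =>
        wsum (M r) b = wsum (M r) (v0 r)) else {v0 r}).card ≤
        if r.1 < k then (Fintype.card N).choose (Fintype.card N / 2) else 1 := by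
      intro r
      by_cases hr : r.1 < k
      · rw [if_pos hr, if_pos hr]
        exact card_wsum_eq _ (hM r) _
      · rw [if_neg hr, if_neg hr, Finset.card_singleton]
    refine (Finset.prod_le_prod' fun r _ => h4 r).trans ?_
    rw [Finset.prod_ite, Finset.prod_const_one, mul_one, Finset.prod_const]
    have h5 : (univ.filter (fun r : Fin h => r.1 < k)).card = k := by
      rw [Fin.card_filter_val_lt]
      omega
    rw [h5]
  have h2 : S.card ≤ ((Fintype.card N).choose (Fintype.card N / 2)) ^ k *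
      (univ : Finset (R → N → Bool)).card :=
    Finset.card_le_mul_card_image_of_maps_to (f := res) (fun v _ => Finset.mem_univ _) _ h1
  refine h2.trans (le_of_eq ?_)
  congr 1
  rw [Finset.card_univ, Fintype.card_fun, Fintype.card_fun, Fintype.card_bool]
  congr 1
  have h6 : Fintype.card R = h - (univ.filter (fun r : Fin h => r.1 < k)).card := by
    rw [Fintype.card_subtype]
    have h7 := Finset.card_filter_add_card_filter_not (s := (univ : Finset (Fin h)))
      (p := fun r : Fin h => r.1 < k)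
    rw [Finset.card_univ, Fintype.card_fin] at h7
    have h8 : univ.filter (fun r : Fin h => ¬ r.1 < k) = univ.filter (fun r : Fin h => k ≤ r.1) := by
      refine Finset.filter_congr fun r _ => ?_
      exact not_lt
    rw [h8] at h7
    omega
  rw [h6, Fin.card_filter_val_lt, min_eq_right hk]

variable {G : Type*} [CommGroup G]

/-- Functions with values `M`, `-M` that change sign under multiplication by `c`. -/
def IsSgnW (c : G) (M : G → ℤ) (u : G → ℤ) : Prop :=
  (∀ g, u g = M g ∨ u g = - M g) ∧ ∀ g, u (c * g) = - u g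

variable [Fintype G] {N : Subgroup G} {γ c : G}

theorem IsGen.sum_eq' [Fintype N] (hγ : IsGen N γ) (hc : c * c = 1) (hcN : c ∉ N) {h : ℕ}
    (hh : N.index = 2 * h) (hch : c * (γ ^ h)⁻¹ ∈ N) (u : G → ℤ) (hu : ∀ g, u (c * g) = - u g)
    (χ : G →* ℂˣ) (hχ : χ.ker = N) :
    ∑ g, (u g : ℂ) * (χ g : ℂ) = 2 * ∑ r : Fin h, ((F γ N u r : ℤ) : ℂ) * (χ γ : ℂ) ^ (r : ℕ) := by
  classical
  have hb := hγ.bijective hh hch
  rw [← Function.Bijective.sum_comp hb (fun g => (u g : ℂ) * (χ g : ℂ)), Fintype.sum_prod_type,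
    Fintype.sum_bool]
  have h1 : ∀ x : Fin h × N, (u (c * (γ ^ (x.1 : ℕ) * (x.2 : G))) : ℂ) *
      (χ (c * (γ ^ (x.1 : ℕ) * (x.2 : G))) : ℂ) =
      (u (γ ^ (x.1 : ℕ) * (x.2 : G)) : ℂ) * (χ γ : ℂ) ^ (x.1 : ℕ) := by
    intro x
    rw [hu, map_mul, Units.val_mul, chi_c χ hχ hc hcN, map_mul, map_pow, Units.val_mul,
      Units.val_pow_eq_pow_val]
    have h2 : χ (x.2 : G) = 1 := by
      rw [← MonoidHom.mem_ker, hχ]
      exact x.2.2
    rw [h2, Units.val_one, mul_one]
    push_cast
    ring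
  have h2 : ∀ x : Fin h × N, (u (γ ^ (x.1 : ℕ) * (x.2 : G)) : ℂ) *
      (χ (γ ^ (x.1 : ℕ) * (x.2 : G)) : ℂ) =
      (u (γ ^ (x.1 : ℕ) * (x.2 : G)) : ℂ) * (χ γ : ℂ) ^ (x.1 : ℕ) := by
    intro x
    rw [map_mul, map_pow, Units.val_mul, Units.val_pow_eq_pow_val]
    have h2 : χ (x.2 : G) = 1 := by
      rw [← MonoidHom.mem_ker, hχ]
      exact x.2.2
    rw [h2, Units.val_one, mul_one]
  simp only [if_true, Bool.false_eq_true, if_false, one_mul]
  rw [Finset.sum_congr rfl fun x _ => h1 x, Finset.sum_congr rfl fun x _ => h2 x, ← two_mul,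
    Fintype.sum_prod_type]
  congr 1
  refine Finset.sum_congr rfl fun r _ => ?_
  rw [F]
  push_cast
  rw [Finset.sum_mul]

/-- The sign vectors of the classes. -/
def vecW (γ : G) (N : Subgroup G) (h : ℕ) (M u : G → ℤ) : Fin h → N → Bool :=
  fun r y => decide (u (γ ^ (r : ℕ) * (y : G)) = M (γ ^ (r : ℕ) * (y : G)))

theorem F_eqW [Fintype N] {M u : G → ℤ} (hu : IsSgnW c M u) {h : ℕ} (r : Fin h) :
    F γ N u r = wsum (fun y : N => M (γ ^ (r : ℕ) * (y : G))) (vecW γ N h M u r) := by
  rw [F, wsum]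
  refine Finset.sum_congr rfl fun y _ => ?_
  rw [vecW]
  by_cases h1 : u (γ ^ (r : ℕ) * (y : G)) = M (γ ^ (r : ℕ) * (y : G))
  · rw [h1]
    simp
  · rw [(hu.1 _).resolve_left h1]
    rw [if_neg]
    rw [decide_eq_true_eq]
    intro h2
    apply h1
    rw [(hu.1 _).resolve_left h1, h2]

theorem IsGen.vec_injW [Fintype N] (hγ : IsGen N γ) {h : ℕ}
    (hh : N.index = 2 * h) (hch : c * (γ ^ h)⁻¹ ∈ N) {M u u' : G → ℤ} (hu : IsSgnW c M u)
    (hu' : IsSgnW c M u') (hv : vecW γ N h M u = vecW γ N h M u') : u = u' := by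
  have h1 : ∀ (r : Fin h) (y : N), u (γ ^ (r : ℕ) * (y : G)) = u' (γ ^ (r : ℕ) * (y : G)) := by
    intro r y
    have h2 : decide (u (γ ^ (r : ℕ) * (y : G)) = M (γ ^ (r : ℕ) * (y : G))) =
        decide (u' (γ ^ (r : ℕ) * (y : G)) = M (γ ^ (r : ℕ) * (y : G))) :=
      congrFun (congrFun hv r) y
    have h3 := decide_eq_decide.1 h2
    rcases hu.1 (γ ^ (r : ℕ) * (y : G)) with h4 | h4
    · rw [h4, h3.1 h4]
    · rcases hu'.1 (γ ^ (r : ℕ) * (y : G)) with h5 | h5
      · rw [h3.2 h5, h5]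
      · rw [h4, h5]
  funext g
  obtain ⟨⟨e, r, y⟩, rfl⟩ := (hγ.bijective hh hch).2 g
  cases e
  · simp only [Bool.false_eq_true, if_false, one_mul]
    exact h1 r y
  · simp only [if_true]
    rw [hu.2, hu'.2, h1 r y]

/-- **The number of weighted sign functions degenerate at `N`.** -/
theorem ncard_degAtW [DecidableEq G] (M : G → ℤ) (hM : ∀ g, M g ≠ 0) (hc : c * c = 1)
    (hcN : c ∉ N) :
    {u : G → ℤ | IsSgnW c M u ∧ DegAt N u}.ncard ≤
      ((Nat.card N).choose (Nat.card N / 2)) ^ N.index.totient *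
        (2 ^ Nat.card N) ^ (N.index / 2 - N.index.totient) := by
  classical
  rcases Set.eq_empty_or_nonempty {u : G → ℤ | IsSgnW c M u ∧ DegAt N u} with
    hemp | ⟨u0, -, χ₀, hχ₀, -⟩
  · rw [hemp, Set.ncard_empty]
    exact Nat.zero_le _
  obtain ⟨γ, hγ⟩ := exists_isGen χ₀
  rw [hχ₀] at hγ
  obtain ⟨h, hh, hch⟩ := hγ.index_eq hc hcN
  have hpos := index_pos N
  have hk : N.index.totient ≤ h := by
    rw [hh]
    have h1 : (2 * h).totient ≤ h := by
      have h2 : 2 * (2 * h).totient ≤ 2 * h := by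
        rcases Nat.even_or_odd h with he | ho
        · rw [Nat.totient_mul_of_prime_of_dvd Nat.prime_two he.two_dvd]
          have h3 := totient_even_le he (by omega)
          omega
        · rw [Nat.totient_mul_of_prime_of_not_dvd Nat.prime_two
            (fun h2 => (Nat.not_even_iff_odd.2 ho) (even_iff_two_dvd.2 h2))]
          have := Nat.totient_le h
          omega
      omega
    exact h1
  let T : Finset (Fin h → N → Bool) :=
    univ.filter (fun v => ∃ u, IsSgnW c M u ∧ DegAt N u ∧ vecW γ N h M u = v)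
  have h1 : {u : G → ℤ | IsSgnW c M u ∧ DegAt N u}.ncard ≤ T.card := by
    rw [← Set.ncard_coe_finset]
    refine Set.ncard_le_ncard_of_injOn (vecW γ N h M) ?_ ?_ (Finset.finite_toSet T)
    · intro u hu
      rw [Finset.mem_coe, Finset.mem_filter]
      exact ⟨Finset.mem_univ _, u, hu.1, hu.2, rfl⟩
    · intro u hu u' hu' hv
      exact hγ.vec_injW hh hch hu.1 hu'.1 hv
  refine h1.trans ?_
  have hhalf : N.index / 2 = h := by omega
  rw [hhalf, Nat.card_eq_fintype_card]
  refine card_leW h N.index.totient hk (fun (r : Fin h) (y : N) => M (γ ^ (r : ℕ) * (y : G)))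
    (fun r y => hM _)
    T ?_
  rintro v hv v' hv' hvv r
  rw [Finset.mem_filter] at hv hv'
  obtain ⟨-, u, hu, ⟨χ, hχ, hz⟩, rfl⟩ := hv
  obtain ⟨-, u', hu', ⟨χ', hχ', hz'⟩, rfl⟩ := hv'
  rw [hγ.sum_eq' hc hcN hh hch u hu.2 χ hχ] at hz
  rw [hγ.sum_eq' hc hcN hh hch u' hu'.2 χ' hχ'] at hz'
  have hz1 : ∑ r : Fin h, (((F γ N u r : ℤ) : ℚ) : ℂ) * (χ γ : ℂ) ^ (r : ℕ) = 0 := by
    have h3 := (mul_eq_zero.1 hz).resolve_left two_ne_zero
    rw [← h3]
    refine Finset.sum_congr rfl fun r _ => ?_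
    push_cast
    rfl
  have hz1' : ∑ r : Fin h, (((F γ N u' r : ℤ) : ℚ) : ℂ) * (χ' γ : ℂ) ^ (r : ℕ) = 0 := by
    have h3 := (mul_eq_zero.1 hz').resolve_left two_ne_zero
    rw [← h3]
    refine Finset.sum_congr rfl fun r _ => ?_
    push_cast
    rfl
  have h2 := eq_of_vanish hpos (fun r : Fin h => ((F γ N u r : ℤ) : ℚ))
    (fun r : Fin h => ((F γ N u' r : ℤ) : ℚ)) _ _ (hγ.prim χ hχ) hz1 (hγ.prim χ' hχ') hz1'
    (fun r hr => by
      rw [F_eqW hu, F_eqW hu', hvv r hr]) r
  have h3 : F γ N u r = F γ N u' r := by exact_mod_cast h2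
  rw [F_eqW hu, F_eqW hu'] at h3
  exact h3

theorem ncard_degAtW_weight [DecidableEq G] {M : G → ℤ} (hM : ∀ g, M g ≠ 0) {c : G}
    {N : Subgroup G} (hc : c * c = 1) (hcN : c ∉ N) :
    ({u : G → ℤ | IsSgnW c M u ∧ DegAt N u}.ncard : ℝ) ≤
      2 ^ (Fintype.card G / 2) * pr (Nat.card N) ^ N.index.totient := by
  classical
  rcases Set.eq_empty_or_nonempty {u : G → ℤ | IsSgnW c M u ∧ DegAt N u} with hemp | hne
  · rw [hemp, Set.ncard_empty, Nat.cast_zero]
    exact mul_nonneg (by positivity) (pow_nonneg (pr_nonneg _) _)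
  have h1 := ncard_degAtW (N := N) M hM hc hcN
  obtain ⟨u, hu, χ, hχ, hz⟩ := hne
  obtain ⟨γ, hγ⟩ := exists_isGen χ
  rw [hχ] at hγ
  obtain ⟨h, hh, hch⟩ := hγ.index_eq hc hcN
  have hcard : N.index * Nat.card N = Fintype.card G := by
    rw [← Nat.card_eq_fintype_card]
    exact N.index_mul_card
  have hhalf : Fintype.card G / 2 = h * Nat.card N := by
    rw [← hcard, hh, mul_assoc, Nat.mul_div_cancel_left _ (by norm_num : 0 < 2)]
  have hpos := index_pos N
  have hh0 : 0 < h := by omega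
  have hk : N.index.totient ≤ h := by
    rw [hh]
    rcases Nat.even_or_odd h with he | ho
    · rw [Nat.totient_mul_of_prime_of_dvd Nat.prime_two he.two_dvd]
      have h6 := totient_even_le he hh0
      omega
    · rw [Nat.totient_mul_of_prime_of_not_dvd Nat.prime_two
        (fun h2 => (Nat.not_even_iff_odd.2 ho) (even_iff_two_dvd.2 h2))]
      have := Nat.totient_le h
      omega
  calc ({u : G → ℤ | IsSgnW c M u ∧ DegAt N u}.ncard : ℝ)
      ≤ (((Nat.card N).choose (Nat.card N / 2)) ^ N.index.totient *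
        (2 ^ Nat.card N) ^ (N.index / 2 - N.index.totient) : ℕ) := by exact_mod_cast h1
    _ = 2 ^ (Fintype.card G / 2) * pr (Nat.card N) ^ N.index.totient := by
        rw [hhalf, pr]
        have h3 : N.index / 2 = h := by omega
        rw [h3]
        push_cast
        rw [div_pow]
        have h4 : (2 : ℝ) ^ (h * Nat.card N) = (2 ^ Nat.card N) ^ N.index.totient *
            (2 ^ Nat.card N) ^ (h - N.index.totient) := by
          rw [← pow_add, Nat.add_sub_cancel' hk, ← pow_mul, mul_comm]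
        rw [h4]
        field_simp

theorem ncard_degW [DecidableEq G] {M : G → ℤ} (hM : ∀ g, M g ≠ 0) {c : G} (hc : c * c = 1) :
    ({u : G → ℤ | IsSgnW c M u ∧ ∃ N : Subgroup G, c ∉ N ∧ DegAt N u}.ncard : ℝ) ≤
      2 ^ (Fintype.card G / 2) * ∑ N ∈ (Set.toFinite (cyc c)).toFinset,
        pr (Nat.card N) ^ N.index.totient := by
  classical
  have hfin : ∀ N : Subgroup G, {u : G → ℤ | IsSgnW c M u ∧ DegAt N u}.Finite := by
    intro N
    refine Set.Finite.subset (Set.Finite.pi' (fun g : G => (Set.finite_insert.2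
      (Set.finite_singleton (-M g)) : ({M g, -M g} : Set ℤ).Finite))) ?_
    intro u hu g
    rcases hu.1.1 g with h | h
    · exact Or.inl h
    · exact Or.inr h
  have h1 : {u : G → ℤ | IsSgnW c M u ∧ ∃ N : Subgroup G, c ∉ N ∧ DegAt N u} ⊆
      ⋃ N ∈ (Set.toFinite (cyc c)).toFinset, {u : G → ℤ | IsSgnW c M u ∧ DegAt N u} := by
    rintro u ⟨hu, N, hcN, hN⟩
    rw [Set.mem_iUnion₂]
    refine ⟨N, ?_, hu, hN⟩
    rw [Set.Finite.mem_toFinset]
    obtain ⟨χ, hχ, -⟩ := hN
    exact ⟨hcN, χ, hχ⟩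
  have h2 : {u : G → ℤ | IsSgnW c M u ∧ ∃ N : Subgroup G, c ∉ N ∧ DegAt N u}.ncard ≤
      ∑ N ∈ (Set.toFinite (cyc c)).toFinset, {u : G → ℤ | IsSgnW c M u ∧ DegAt N u}.ncard := by
    refine (Set.ncard_le_ncard h1 ?_).trans (Finset.set_ncard_biUnion_le _ _)
    exact Set.Finite.biUnion (Finset.finite_toSet _) (fun N _ => hfin N)
  calc ({u : G → ℤ | IsSgnW c M u ∧ ∃ N : Subgroup G, c ∉ N ∧ DegAt N u}.ncard : ℝ)
      ≤ ∑ N ∈ (Set.toFinite (cyc c)).toFinset,
          ({u : G → ℤ | IsSgnW c M u ∧ DegAt N u}.ncard : ℝ) := by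
        exact_mod_cast h2
    _ ≤ ∑ N ∈ (Set.toFinite (cyc c)).toFinset,
          2 ^ (Fintype.card G / 2) * pr (Nat.card N) ^ N.index.totient := by
        refine Finset.sum_le_sum fun N hN => ?_
        rw [Set.Finite.mem_toFinset] at hN
        exact ncard_degAtW_weight hM hc hN.1
    _ = _ := by rw [Finset.mul_sum]

end Pool.Agent.TH170.CM
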