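import Mathlib
import Pool.Agent.TH170.CM.Defs
import Pool.Agent.H977R3.CM.Indep
import Pool.Agent.H977R3.CM.Tower
import Pool.Agent.H204R3.CM.Nondeg

/-!
# Families of nondegenerate CM types of independent CM fields
-/

namespace Pool.Agent.TH170.CM

open NumberField Finset Pool.Agent.H204R3.CM Pool.Agent.H977R3.CM Module

theorem nondeg_of_not_degenerate {ι : Type*} [Fintype ι] {E : ι → Type*} [∀ i, Field (E i)]
    [∀ i, NumberField (E i)] [∀ i, IsCMField (E i)] {L : Type*} [Field L] [NumberField L]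
    [IsGalois ℚ L] {Φ : ∀ i, Set (E i →+* ℂ)} (hΦ : ∀ i, IsCMType (Φ i)) (j : L →+* ℂ)
    (h : ∀ i, ∀ ψ : E i →+* ℂ, ∃ φ : E i →+* L, j.comp φ = ψ) (hind : PairwiseIndep E)
    (hnd : ∀ i, ¬ Degenerate (Φ i)) : Nondeg Φ j := by
  classical
  intro c hc hrel i φ
  have h1 : ∀ g : L ≃ₐ[ℚ] L, ∑ x : E i →+* L, c i x *
      (if j.comp (g • x) ∈ Φ i then (1 : ℤ) else -1) = 0 := by
    intro g
    refine indep (G := L ≃ₐ[ℚ] L) (fun i => E i →+* L) (fun i => cbar)
      (fun i φ => if j.comp φ ∈ Φ i then (1 : ℤ) else -1) (fun i φ => sign_cbar (hΦ i) j φ)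
      (fun g i φ => rfl) ?_ c (fun g => ?_) i g
    · intro i i' hii φ ψ
      obtain ⟨σ, hσ1, hσ2⟩ := hind i i' hii (j.comp φ) (j.comp ψ)
      obtain ⟨g, hg⟩ := exists_gal j σ
      refine ⟨g, ?_, ?_⟩
      · ext x
        apply j.injective
        rw [emb_smul_apply, ← hg]
        exact hσ1 x
      · ext x
        apply j.injective
        rw [emb_smul_apply, ← hg]
        have h1 := RingHom.congr_fun (comp_cbar j ψ) x
        rw [ComplexEmbedding.conjugate_coe_eq] at h1
        exact (hσ2 x).trans h1.symm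
    · exact hrel g
  have hb : Function.Bijective (fun φ : E i →+* L => j.comp φ) := by
    constructor
    · intro φ φ' h
      ext x
      exact j.injective (RingHom.congr_fun h x)
    · exact h i
  let e : (E i →+* L) ≃ (E i →+* ℂ) := Equiv.ofBijective _ hb
  by_contra hne
  apply hnd i
  refine ⟨fun ψ => c i (e.symm ψ), ?_, ?_, ?_⟩
  · intro h0
    apply hne
    have h2 := congrFun h0 (e φ)
    simpa using h2
  · intro ψ
    obtain ⟨φ, rfl⟩ := e.surjective ψ
    have h2 : ComplexEmbedding.conjugate (e φ) = e (cbar φ) := (comp_cbar j φ).symm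
    simp only
    rw [h2, Equiv.symm_apply_apply, Equiv.symm_apply_apply, hc]
  · intro σ
    obtain ⟨g, hg⟩ := exists_gal j σ
    rw [← h1 g]
    refine (Fintype.sum_equiv e _ _ fun x => ?_).symm
    simp only
    rw [Equiv.symm_apply_apply, sgn]
    have h2 : (σ : ℂ →+* ℂ).comp (e x) = j.comp (g • x) := by
      ext y
      exact hg (x y)
    rw [h2]

/-- Hodge classes on products of abelian varieties with nondegenerate CM types, for independent
fields. -/
theorem hodge_of_not_degenerate {ι : Type} [Fintype ι] {E : ι → Type} [∀ i, Field (E i)]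
    [∀ i, NumberField (E i)] [∀ i, IsCMField (E i)] {Φ : ∀ i, Set (E i →+* ℂ)}
    (hΦ : ∀ i, IsCMType (Φ i)) (hind : PairwiseIndep E) (hnd : ∀ i, ¬ Degenerate (Φ i))
    {J : Type} [Fintype J] (t : J → ι) : HodgeGenerated (per Φ t) := by
  obtain ⟨L, _, _, j, hj⟩ := exists_galois E
  intro m f hf
  exact hodge_of_nondeg hΦ t j hj (nondeg_of_not_degenerate hΦ j hj hind hnd) f hf

end Pool.Agent.TH170.CM
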